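import Pool.Agent.F155AS.Final




/-! All ranges together. -/

set_option autoImplicit false

namespace Pool.Agent.F155AS

open Finset

/-- The window together with the range `k² ≥ C n`. -/
theorem merge
    (far : ∀ ε : ℝ, 0 < ε → ∃ C : ℝ, 0 < C ∧ ∀ n k : ℕ, 1 ≤ k → k ≤ n →
      C * n ≤ (k : ℝ) ^ 2 → (Even (n + k) ∨ C * k ≤ n) → ∀ F : Finset (Finset (Fin n)),
      IsAntichain (· ⊆ ·) (F : Set (Finset (Fin n))) →
      (∀ A ∈ F, ∀ B ∈ F, (symmDiff A B).card ≤ n - k) →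
      (F.card : ℝ) ≤ (1 + ε) * n.choose ((n + k + 1) / 2))
    (ε : ℝ) (hε : 0 < ε) : ∃ C : ℝ, 0 < C ∧ ∀ n k : ℕ, C ≤ n → 1 ≤ k → k ≤ n →
      (Even (n + k) ∨ C * k ≤ n) → ∀ F : Finset (Finset (Fin n)),
      IsAntichain (· ⊆ ·) (F : Set (Finset (Fin n))) →
      (∀ A ∈ F, ∀ B ∈ F, (symmDiff A B).card ≤ n - k) →
      (F.card : ℝ) ≤ (1 + ε) * n.choose ((n + k + 1) / 2) := by
  obtain ⟨C, hC, h1⟩ := far ε hε
  obtain ⟨n₀, h2⟩ := window C ε hC.le hε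
  refine ⟨max C n₀, lt_max_of_lt_left hC, ?_⟩
  intro n k hn hk1 hkn hor F hF hd
  have hn1 : C ≤ n := (le_max_left C n₀).trans hn
  have hn2 : (n₀ : ℝ) ≤ n := (le_max_right C n₀).trans hn
  have hk0 : (0 : ℝ) ≤ k := Nat.cast_nonneg k
  rcases le_or_gt (C * n) ((k : ℝ) ^ 2) with h | h
  · refine h1 n k hk1 hkn h ?_ F hF hd
    rcases hor with h' | h'
    · exact Or.inl h'
    · exact Or.inr ((mul_le_mul_of_nonneg_right (le_max_left C n₀) hk0).trans h')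
  · exact h2 n (by exact_mod_cast hn2) k hk1 hkn h.le F hF hd

end Pool.Agent.F155AS
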