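import Mathlib

/-! Binomial coefficients in the middle range: `C(n,l) = C(n,n/2) exp(-2(l-n/2)²/n) (1 + o(1))`
uniformly for `|l - n/2| ≤ K √n`.

PROOF. For `t = l - n/2 ≥ 0`: `C(n,l+1)/C(n,l) = (n/2 - t)/(n/2 + t + 1)`, so with
`f(l) = log C(n,l) + 2 (l - n/2)²/n` one gets `|f(l+1) - f(l)| ≤ C (t+1)²/n²` for `t ≤ n/8`
(`log (1 - x) = -x + O(x²)`, `log (1 + x) = x + O(x²)`); sum from `l = n/2` to `n/2 + K √n`:
the error is `O(K³/√n)`.  For `l < n/2` use `C(n,l) = C(n,n-l)`.  Tail: monotonicity. -/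

set_option autoImplicit false

namespace Pool.Agent.F155AS

private lemma log_near (z : ℝ) (h0 : 0 ≤ z) (h1 : z ≤ 1 / 2) :
    |Real.log (1 - z) - Real.log (1 + z) + 2 * z| ≤ 2 * z ^ 2 := by
  have hp : 0 < 1 + z := by linarith
  have hm : 0 < 1 - z := by linarith
  have a1 : Real.log (1 + z) ≤ z := by
    have := Real.log_le_sub_one_of_pos hp
    linarith
  have a2 : z - z ^ 2 ≤ Real.log (1 + z) := by
    have := Real.one_sub_inv_le_log_of_pos hp
    have h2 : 1 - (1 + z)⁻¹ = z / (1 + z) := by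
      field_simp
      ring
    rw [h2] at this
    refine le_trans ?_ this
    rw [le_div_iff₀ hp]
    nlinarith [pow_nonneg h0 3]
  have a3 : Real.log (1 - z) ≤ -z := by
    have := Real.log_le_sub_one_of_pos hm
    linarith
  have a4 : -z - 2 * z ^ 2 ≤ Real.log (1 - z) := by
    have := Real.one_sub_inv_le_log_of_pos hm
    have h2 : 1 - (1 - z)⁻¹ = -z / (1 - z) := by
      field_simp
      ring
    rw [h2] at this
    refine le_trans ?_ this
    rw [le_div_iff₀ hm]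
    nlinarith [sq_nonneg z, mul_nonneg (sq_nonneg z) (by linarith : (0 : ℝ) ≤ 1 - 2 * z)]
  rw [abs_le]
  constructor <;> nlinarith [sq_nonneg z]

/-- the logarithm of the binomial coefficient with the Gaussian term removed -/
private noncomputable def ff (n l : ℕ) : ℝ :=
  Real.log (n.choose l) + 2 * ((l : ℝ) - n / 2) ^ 2 / n

private lemma ff_step (n l : ℕ) (K : ℝ) (hK : 0 < K) (hn : 0 < n) (hl : l + 1 ≤ n)
    (h1 : n ≤ 2 * l + 1) (h2 : ((l + 1 : ℕ) : ℝ) - n / 2 ≤ K * Real.sqrt n)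
    (h3 : 4 * K ≤ Real.sqrt n) :
    |ff n (l + 1) - ff n l| ≤ (4 * K + 8 * K ^ 2) / n := by
  have hn0 : (0 : ℝ) < n := by exact_mod_cast hn
  have hn1 : (1 : ℝ) ≤ n := by exact_mod_cast hn
  have hs0 : 0 < Real.sqrt n := Real.sqrt_pos.2 hn0
  have hs1 : 1 ≤ Real.sqrt n := by
    rw [Real.one_le_sqrt]
    exact hn1
  have hss : Real.sqrt n * Real.sqrt n = n := Real.mul_self_sqrt hn0.le
  set z : ℝ := (2 * l + 1 - n) / (n + 1) with hz
  have hnp : (0 : ℝ) < n + 1 := by linarith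
  have hz0 : 0 ≤ z := by
    rw [hz]
    refine div_nonneg ?_ hnp.le
    have : (n : ℝ) ≤ 2 * l + 1 := by exact_mod_cast h1
    linarith
  have hzK : z ≤ 2 * K / Real.sqrt n := by
    rw [hz, div_le_div_iff₀ hnp hs0]
    push_cast at h2
    have h4 : (2 * (l : ℝ) + 1 - n) ≤ 2 * K * Real.sqrt n := by linarith
    calc (2 * (l : ℝ) + 1 - n) * Real.sqrt n ≤ 2 * K * Real.sqrt n * Real.sqrt n := by
          exact mul_le_mul_of_nonneg_right h4 hs0.le
      _ = 2 * K * n := by rw [mul_assoc, hss]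
      _ ≤ 2 * K * (n + 1) := by nlinarith
  have hz2 : z ≤ 1 / 2 := by
    refine hzK.trans ?_
    rw [div_le_div_iff₀ hs0 (by norm_num)]
    linarith
  have hc0 : (0 : ℝ) < n.choose l := by exact_mod_cast Nat.choose_pos (by omega)
  have hc1 : (0 : ℝ) < n.choose (l + 1) := by exact_mod_cast Nat.choose_pos hl
  have hrat : (n.choose (l + 1) : ℝ) * (1 + z) = n.choose l * (1 - z) := by
    have h5 := Nat.choose_succ_right_eq n l
    have h6 : (n.choose (l + 1) : ℝ) * (l + 1) = n.choose l * (n - l) := by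
      have h7 : ((n.choose (l + 1) * (l + 1) : ℕ) : ℝ) = ((n.choose l * (n - l) : ℕ) : ℝ) := by
        exact_mod_cast h5
      push_cast [Nat.cast_sub (by omega : l ≤ n)] at h7
      exact h7
    have h8 : 1 + z = 2 * (l + 1) / (n + 1) := by
      rw [hz]
      field_simp
      ring
    have h9 : 1 - z = 2 * (n - l) / (n + 1) := by
      rw [hz]
      field_simp
      ring
    rw [h8, h9]
    field_simp
    linarith
  have hlog : Real.log (n.choose (l + 1)) - Real.log (n.choose l) =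
      Real.log (1 - z) - Real.log (1 + z) := by
    have h5 := congrArg Real.log hrat
    rw [Real.log_mul hc1.ne' (by linarith), Real.log_mul hc0.ne' (by linarith)] at h5
    linarith
  have hquad : 2 * (((l + 1 : ℕ) : ℝ) - n / 2) ^ 2 / n - 2 * ((l : ℝ) - n / 2) ^ 2 / n =
      2 * z + 2 * z / n := by
    rw [hz]
    push_cast
    field_simp
    ring
  have hdiff : ff n (l + 1) - ff n l =
      (Real.log (1 - z) - Real.log (1 + z) + 2 * z) + 2 * z / n := by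
    unfold ff
    linarith
  rw [hdiff]
  have h10 := log_near z hz0 hz2
  have h11 : z ^ 2 ≤ 4 * K ^ 2 / n := by
    have h12 : z ^ 2 ≤ (2 * K / Real.sqrt n) ^ 2 := pow_le_pow_left₀ hz0 hzK 2
    refine h12.trans (le_of_eq ?_)
    rw [div_pow, Real.sq_sqrt hn0.le]
    ring
  have h13 : 2 * z / n ≤ 4 * K / n := by
    rw [div_le_div_iff_of_pos_right hn0]
    have h14 : 2 * K / Real.sqrt n ≤ 2 * K := div_le_self (by linarith) hs1
    linarith
  have h15 : 0 ≤ 2 * z / n := by positivity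
  calc |(Real.log (1 - z) - Real.log (1 + z) + 2 * z) + 2 * z / n|
      ≤ |Real.log (1 - z) - Real.log (1 + z) + 2 * z| + |2 * z / n| := abs_add_le _ _
    _ ≤ 2 * z ^ 2 + 4 * K / n := by
        rw [abs_of_nonneg h15]
        linarith
    _ ≤ 2 * (4 * K ^ 2 / n) + 4 * K / n := by linarith
    _ = (4 * K + 8 * K ^ 2) / n := by ring

private lemma ff_sum (n : ℕ) (K : ℝ) (hK : 0 < K) (hn : 0 < n) (h3 : 4 * K ≤ Real.sqrt n)
    (j : ℕ) (hj : n / 2 + j ≤ n) (h2 : ((n / 2 + j : ℕ) : ℝ) - n / 2 ≤ K * Real.sqrt n) :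
    |ff n (n / 2 + j) - ff n (n / 2)| ≤ j * ((4 * K + 8 * K ^ 2) / n) := by
  induction j with
  | zero => simp
  | succ j ih =>
    have h4 : ((n / 2 + j : ℕ) : ℝ) - n / 2 ≤ K * Real.sqrt n := by
      refine le_trans ?_ h2
      have : ((n / 2 + j : ℕ) : ℝ) ≤ ((n / 2 + (j + 1) : ℕ) : ℝ) := by
        exact_mod_cast (by omega : n / 2 + j ≤ n / 2 + (j + 1))
      linarith
    have h5 := ih (by omega) h4
    have h6 := ff_step n (n / 2 + j) K hK hn (by omega) (by omega) h2 h3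
    have h7 : n / 2 + (j + 1) = (n / 2 + j) + 1 := by ring
    rw [h7]
    have h8 : ff n (n / 2 + j + 1) - ff n (n / 2) =
        (ff n (n / 2 + j + 1) - ff n (n / 2 + j)) + (ff n (n / 2 + j) - ff n (n / 2)) := by ring
    rw [h8]
    refine (abs_add_le _ _).trans ?_
    push_cast
    linarith

private lemma ff_all (K δ : ℝ) (hK : 0 < K) (hδ : 0 < δ) : ∃ n₀ : ℕ, ∀ n : ℕ, n₀ ≤ n →
    ∀ l : ℕ, l ≤ n → n / 2 ≤ l → (l : ℝ) - n / 2 ≤ K * Real.sqrt n →
      |ff n l - Real.log (n.choose (n / 2))| ≤ δ := by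
  set c : ℝ := (K + 1) * (4 * K + 8 * K ^ 2) + 1 with hc
  have hc0 : 0 < c := by positivity
  obtain ⟨n₀, hn₀⟩ := exists_nat_gt ((c / δ + 4 * K + 1) ^ 2)
  refine ⟨n₀, fun n hn l hl hln h2 => ?_⟩
  have hsq : c / δ + 4 * K + 1 < Real.sqrt n := by
    apply Real.lt_sqrt_of_sq_lt
    exact hn₀.trans_le (by exact_mod_cast hn)
  have hcd : 0 < c / δ := by positivity
  have hs1 : 1 ≤ Real.sqrt n := by linarith
  have hn1 : (1 : ℝ) ≤ n := by
    rwa [Real.one_le_sqrt] at hs1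
  have hn0 : (0 : ℝ) < n := by linarith
  have hnn : 0 < n := by exact_mod_cast hn0
  have hs0 : 0 < Real.sqrt n := by linarith
  have hss : Real.sqrt n * Real.sqrt n = n := Real.mul_self_sqrt hn0.le
  obtain ⟨j, rfl⟩ := Nat.exists_eq_add_of_le hln
  have h4 := ff_sum n K hK hnn (by linarith) j hl h2
  have hfl : |((n / 2 : ℕ) : ℝ) - n / 2| ≤ 1 / 2 := by
    rcases Nat.even_or_odd' n with ⟨m, rfl | rfl⟩
    · rw [Nat.mul_div_cancel_left _ (by norm_num)]
      push_cast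
      rw [show (m : ℝ) - 2 * m / 2 = 0 by ring]
      norm_num
    · rw [show (2 * m + 1) / 2 = m by omega]
      push_cast
      rw [show (m : ℝ) - (2 * m + 1) / 2 = -(1 / 2) by ring]
      norm_num
  have hj : (j : ℝ) ≤ K * Real.sqrt n + 1 := by
    have h5 := (abs_le.1 hfl).1
    push_cast at h2
    have h6 : ((n / 2 : ℕ) : ℝ) + j - n / 2 ≤ K * Real.sqrt n := h2
    linarith
  have h7 : (j : ℝ) * ((4 * K + 8 * K ^ 2) / n) ≤ (K + 1) * (4 * K + 8 * K ^ 2) / Real.sqrt n := by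
    rw [mul_div_assoc', div_le_div_iff₀ hn0 hs0]
    have h8 : (j : ℝ) ≤ (K + 1) * Real.sqrt n := by nlinarith
    calc (j : ℝ) * (4 * K + 8 * K ^ 2) * Real.sqrt n
        ≤ (K + 1) * Real.sqrt n * (4 * K + 8 * K ^ 2) * Real.sqrt n := by
          gcongr
      _ = (K + 1) * (4 * K + 8 * K ^ 2) * (Real.sqrt n * Real.sqrt n) := by ring
      _ = (K + 1) * (4 * K + 8 * K ^ 2) * n := by rw [hss]
  have h9 : |ff n (n / 2) - Real.log (n.choose (n / 2))| ≤ 1 / Real.sqrt n := by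
    unfold ff
    rw [add_sub_cancel_left]
    have h10 : (((n / 2 : ℕ) : ℝ) - n / 2) ^ 2 ≤ 1 / 4 := by
      have := sq_abs (((n / 2 : ℕ) : ℝ) - n / 2)
      rw [← this]
      nlinarith [abs_nonneg (((n / 2 : ℕ) : ℝ) - n / 2)]
    rw [abs_of_nonneg (by positivity)]
    rw [div_le_div_iff₀ hn0 hs0]
    have h11 : Real.sqrt n ≤ n := by nlinarith
    nlinarith [sq_nonneg (((n / 2 : ℕ) : ℝ) - n / 2)]
  have h12 : ff n (n / 2 + j) - Real.log (n.choose (n / 2)) =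
      (ff n (n / 2 + j) - ff n (n / 2)) + (ff n (n / 2) - Real.log (n.choose (n / 2))) := by ring
  rw [h12]
  refine (abs_add_le _ _).trans ?_
  have h13 : (K + 1) * (4 * K + 8 * K ^ 2) / Real.sqrt n + 1 / Real.sqrt n = c / Real.sqrt n := by
    rw [hc]
    ring
  have h14 : c / Real.sqrt n ≤ δ := by
    rw [div_le_iff₀ hs0]
    have h15 : c / δ ≤ Real.sqrt n := by linarith
    rw [div_le_iff₀ hδ] at h15
    linarith
  linarith

private lemma gauss_up (K δ : ℝ) (hK : 0 < K) (hδ : 0 < δ) : ∃ n₀ : ℕ, ∀ n : ℕ, n₀ ≤ n →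
    ∀ l : ℕ, l ≤ n → n / 2 ≤ l → (l : ℝ) - n / 2 ≤ K * Real.sqrt n →
      Real.exp (-(2 * ((l : ℝ) - n / 2) ^ 2 / n) - δ) * n.choose (n / 2) ≤ n.choose l ∧
      (n.choose l : ℝ) ≤ Real.exp (-(2 * ((l : ℝ) - n / 2) ^ 2 / n) + δ) * n.choose (n / 2) := by
  obtain ⟨n₀, h⟩ := ff_all K δ hK hδ
  refine ⟨n₀, fun n hn l hl hln h2 => ?_⟩
  have h3 := h n hn l hl hln h2
  rw [abs_le] at h3
  have hc0 : (0 : ℝ) < n.choose l := by exact_mod_cast Nat.choose_pos hl
  have hc1 : (0 : ℝ) < n.choose (n / 2) := by exact_mod_cast Nat.choose_pos (Nat.div_le_self n 2)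
  unfold ff at h3
  constructor
  · rw [← Real.exp_log hc0]
    conv_lhs => rw [← Real.exp_log hc1]
    rw [← Real.exp_add, Real.exp_le_exp]
    linarith [h3.1]
  · rw [← Real.exp_log hc0]
    conv_rhs => rw [← Real.exp_log hc1]
    rw [← Real.exp_add, Real.exp_le_exp]
    linarith [h3.2]

theorem binom_gauss (K δ : ℝ) (hK : 0 < K) (hδ : 0 < δ) : ∃ n₀ : ℕ, ∀ n : ℕ, n₀ ≤ n →
    ∀ l : ℕ, l ≤ n → |(l : ℝ) - n / 2| ≤ K * Real.sqrt n →
      Real.exp (-(2 * ((l : ℝ) - n / 2) ^ 2 / n) - δ) * n.choose (n / 2) ≤ n.choose l ∧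
      (n.choose l : ℝ) ≤ Real.exp (-(2 * ((l : ℝ) - n / 2) ^ 2 / n) + δ) * n.choose (n / 2) := by
  obtain ⟨n₀, h⟩ := gauss_up K δ hK hδ
  refine ⟨n₀, fun n hn l hl h2 => ?_⟩
  rw [abs_le] at h2
  rcases le_or_gt (n / 2) l with hln | hln
  · exact h n hn l hl hln h2.2
  · have h3 : ((n - l : ℕ) : ℝ) = n - l := Nat.cast_sub hl
    have h4 : ((n - l : ℕ) : ℝ) - n / 2 = -((l : ℝ) - n / 2) := by
      rw [h3]
      ring
    have h5 := h n hn (n - l) (Nat.sub_le n l) (by omega) (by rw [h4]; linarith [h2.1])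
    rw [h4, neg_sq, Nat.choose_symm hl] at h5
    exact h5

private lemma choose_anti (n l₁ l : ℕ) (h1 : n ≤ 2 * l₁ + 1) (h2 : l₁ ≤ l) :
    n.choose l ≤ n.choose l₁ := by
  induction l, h2 using Nat.le_induction with
  | base => exact le_rfl
  | succ l hl ih =>
    refine le_trans ?_ ih
    have h3 := Nat.choose_succ_right_eq n l
    have h4 : n - l ≤ l + 1 := by omega
    have h5 : n.choose (l + 1) * (l + 1) ≤ n.choose l * (l + 1) := by
      rw [h3]
      exact Nat.mul_le_mul_left _ h4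
    exact Nat.le_of_mul_le_mul_right h5 (Nat.succ_pos l)

private lemma tail_up (K δ : ℝ) (hK : 0 < K) (hδ : 0 < δ) : ∃ n₀ : ℕ, ∀ n : ℕ, n₀ ≤ n →
    ∀ l : ℕ, l ≤ n → K * Real.sqrt n ≤ (l : ℝ) - n / 2 →
      (n.choose l : ℝ) ≤ Real.exp (-(2 * K ^ 2) + δ) * n.choose (n / 2) := by
  obtain ⟨n₁, h⟩ := gauss_up K (δ / 2) hK (by linarith)
  obtain ⟨n₂, hn₂⟩ := exists_nat_gt ((8 * K / δ + 1 / K + 1) ^ 2)
  refine ⟨max n₁ n₂, fun n hn l hl h2 => ?_⟩
  have hsq : 8 * K / δ + 1 / K + 1 < Real.sqrt n := by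
    apply Real.lt_sqrt_of_sq_lt
    exact hn₂.trans_le (by exact_mod_cast (le_max_right _ _).trans hn)
  have hk1 : 0 < 8 * K / δ := by positivity
  have hk2 : 0 < 1 / K := by positivity
  have hs1 : 1 ≤ Real.sqrt n := by linarith
  have hn1 : (1 : ℝ) ≤ n := by
    rwa [Real.one_le_sqrt] at hs1
  have hn0 : (0 : ℝ) < n := by linarith
  have hs0 : 0 < Real.sqrt n := by linarith
  have hss : Real.sqrt n * Real.sqrt n = n := Real.mul_self_sqrt hn0.le
  have hKs : 1 ≤ K * Real.sqrt n := by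
    have h3 : 1 / K ≤ Real.sqrt n := by linarith
    rw [div_le_iff₀ hK] at h3
    linarith
  set l₁ : ℕ := ⌊(n : ℝ) / 2 + K * Real.sqrt n⌋₊ with hl₁
  have hpos : 0 ≤ (n : ℝ) / 2 + K * Real.sqrt n := by positivity
  have hf1 : (l₁ : ℝ) ≤ (n : ℝ) / 2 + K * Real.sqrt n := Nat.floor_le hpos
  have hf2 : (n : ℝ) / 2 + K * Real.sqrt n < l₁ + 1 := Nat.lt_floor_add_one _
  have hl1l : l₁ ≤ l := by
    have h3 : (l₁ : ℝ) ≤ l := by linarith
    exact_mod_cast h3
  have hnl : n ≤ 2 * l₁ := by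
    have h3 : (n : ℝ) ≤ 2 * l₁ := by linarith
    exact_mod_cast h3
  have h4 := (h n ((le_max_left _ _).trans hn) l₁ (hl1l.trans hl) (by omega) (by linarith)).2
  have h5 : (n.choose l : ℝ) ≤ n.choose l₁ := by
    exact_mod_cast choose_anti n l₁ l (by omega) hl1l
  refine h5.trans (h4.trans ?_)
  have hc1 : (0 : ℝ) ≤ n.choose (n / 2) := Nat.cast_nonneg _
  refine mul_le_mul_of_nonneg_right ?_ hc1
  rw [Real.exp_le_exp]
  have h6 : (K * Real.sqrt n - 1) ^ 2 ≤ ((l₁ : ℝ) - n / 2) ^ 2 := by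
    apply pow_le_pow_left₀
    · linarith
    · linarith
  have h7 : K ^ 2 * n - 2 * K * Real.sqrt n ≤ (K * Real.sqrt n - 1) ^ 2 := by nlinarith
  have h8 : 2 * K ^ 2 - 4 * K / Real.sqrt n ≤ 2 * ((l₁ : ℝ) - n / 2) ^ 2 / n := by
    rw [le_div_iff₀ hn0]
    have h9 : (2 * K ^ 2 - 4 * K / Real.sqrt n) * n = 2 * (K ^ 2 * n - 2 * K * Real.sqrt n) := by
      have h10 : 4 * K / Real.sqrt n * n = 4 * K * Real.sqrt n := by
        rw [div_mul_eq_mul_div, div_eq_iff hs0.ne', mul_assoc (4 * K), hss]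
      rw [sub_mul, h10]
      ring
    rw [h9]
    linarith
  have h11 : 4 * K / Real.sqrt n ≤ δ / 2 := by
    rw [div_le_iff₀ hs0]
    have h12 : 8 * K / δ ≤ Real.sqrt n := by linarith
    rw [div_le_iff₀ hδ] at h12
    linarith
  linarith

theorem binom_tail (K δ : ℝ) (hK : 0 < K) (hδ : 0 < δ) : ∃ n₀ : ℕ, ∀ n : ℕ, n₀ ≤ n →
    ∀ l : ℕ, l ≤ n → K * Real.sqrt n ≤ |(l : ℝ) - n / 2| →
      (n.choose l : ℝ) ≤ Real.exp (-(2 * K ^ 2) + δ) * n.choose (n / 2) := by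
  obtain ⟨n₀, h⟩ := tail_up K δ hK hδ
  refine ⟨n₀, fun n hn l hl h2 => ?_⟩
  rcases le_total 0 ((l : ℝ) - n / 2) with h3 | h3
  · rw [abs_of_nonneg h3] at h2
    exact h n hn l hl h2
  · rw [abs_of_nonpos h3] at h2
    have h4 : ((n - l : ℕ) : ℝ) = n - l := Nat.cast_sub hl
    have h5 := h n hn (n - l) (Nat.sub_le n l) (by rw [h4]; linarith)
    rwa [Nat.choose_symm hl] at h5

end Pool.Agent.F155AS
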