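import Pool.Agent.F155AS.Defs

/-! The weights `pw c A`.

PROOFS. (1) `ords c` is nonempty (`Tuple.sort`, `Tuple.monotone_sort`). For one `σ` the sets
`pre σ l` form a chain, so at most one member of an antichain is of the form `pre σ A.card`.
Double count. (2) For fixed `c` and `l ≤ n` the sum of `pw c A` over all `A` with `l` elements is
`1` (each `σ` has exactly one prefix with `l` elements). `Ex p n (fun c => pw c A)` is the same
for `A` and `A.map τ` (substitute `c ↦ c ∘ τ`, `σ ↦ τ⁻¹ σ`), so it depends only on `A.card`.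
(3) if `σ ∈ ords c` then every `B j c` is `pre σ (B j c).card`. -/

set_option autoImplicit false

namespace Pool.Agent.F155AS

open Finset

theorem pw_nonneg {n m : ℕ} (c : Fin n → Fin (m + 1)) (A : Finset (Fin n)) : 0 ≤ pw c A := by
  unfold pw; positivity

theorem mem_pre {n : ℕ} (σ : Equiv.Perm (Fin n)) (l : ℕ) (i : Fin n) :
    i ∈ pre σ l ↔ (σ.symm i : ℕ) < l := by
  simp [pre]

theorem mem_ords {n m : ℕ} (c : Fin n → Fin (m + 1)) (σ : Equiv.Perm (Fin n)) :
    σ ∈ ords c ↔ Monotone (c ∘ σ) := by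
  simp [ords]

theorem ords_nonempty {n m : ℕ} (c : Fin n → Fin (m + 1)) : (ords c).Nonempty :=
  ⟨Tuple.sort c, by rw [mem_ords]; exact Tuple.monotone_sort c⟩

theorem pre_mono {n : ℕ} (σ : Equiv.Perm (Fin n)) {l l' : ℕ} (h : l ≤ l') :
    pre σ l ⊆ pre σ l' := by
  intro i hi
  rw [mem_pre] at hi ⊢
  omega

theorem card_pre {n : ℕ} (σ : Equiv.Perm (Fin n)) {l : ℕ} (h : l ≤ n) : (pre σ l).card = l := by
  have h1 : pre σ l = (univ.filter fun i : Fin n => (i : ℕ) < l).map σ.toEmbedding := by
    ext i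
    simp only [mem_pre, mem_map, mem_filter, mem_univ, true_and, Equiv.coe_toEmbedding]
    constructor
    · intro hi
      exact ⟨σ.symm i, hi, by simp⟩
    · rintro ⟨j, hj, rfl⟩
      simpa using hj
  rw [h1, card_map]
  have h2 : (univ.filter fun i : Fin n => (i : ℕ) < l) =
      (Finset.range l).attachFin (fun i hi => by
        have := Finset.mem_range.mp hi
        omega) := by
    ext i
    simp
  rw [h2, card_attachFin, card_range]

theorem sum_pw_eq {n m : ℕ} (c : Fin n → Fin (m + 1)) (F : Finset (Finset (Fin n))) :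
    ∑ A ∈ F, pw c A =
      (∑ σ ∈ ords c, ((F.filter fun A => pre σ A.card = A).card : ℝ)) / (ords c).card := by
  unfold pw
  rw [← Finset.sum_div]
  congr 1
  have h1 : ∀ A ∈ F, (((ords c).filter fun σ => pre σ A.card = A).card : ℝ) =
      ∑ σ ∈ ords c, if pre σ A.card = A then (1 : ℝ) else 0 := by
    intro A _
    rw [card_filter]
    push_cast
    rfl
  have h2 : ∀ σ ∈ ords c, ((F.filter fun A => pre σ A.card = A).card : ℝ) =
      ∑ A ∈ F, if pre σ A.card = A then (1 : ℝ) else 0 := by
    intro σ _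
    rw [card_filter]
    push_cast
    rfl
  rw [Finset.sum_congr rfl h1, Finset.sum_congr rfl h2, Finset.sum_comm]

theorem sum_pw_le_one {n m : ℕ} (c : Fin n → Fin (m + 1)) (F : Finset (Finset (Fin n)))
    (hF : IsAntichain (· ⊆ ·) (F : Set (Finset (Fin n)))) : ∑ A ∈ F, pw c A ≤ 1 := by
  rw [sum_pw_eq]
  apply div_le_one_of_le₀ _ (by positivity)
  have h1 : ∀ σ ∈ ords c, ((F.filter fun A => pre σ A.card = A).card : ℝ) ≤ 1 := by
    intro σ _
    have h2 : (F.filter fun A => pre σ A.card = A).card ≤ 1 := by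
      rw [card_le_one]
      intro A hA A' hA'
      rw [mem_filter] at hA hA'
      by_contra hne
      rcases le_total A.card A'.card with h | h
      · have h3 := pre_mono σ h
        rw [hA.2, hA'.2] at h3
        exact hF (by exact_mod_cast hA.1) (by exact_mod_cast hA'.1) hne h3
      · have h3 := pre_mono σ h
        rw [hA.2, hA'.2] at h3
        exact hF (by exact_mod_cast hA'.1) (by exact_mod_cast hA.1) (Ne.symm hne) h3
    exact_mod_cast h2
  calc (∑ σ ∈ ords c, ((F.filter fun A => pre σ A.card = A).card : ℝ))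
      ≤ ∑ σ ∈ ords c, (1 : ℝ) := Finset.sum_le_sum h1
    _ = (ords c).card := by simp

/-- for one size the weights sum to one -/
theorem sum_pw_powersetCard {n m : ℕ} (c : Fin n → Fin (m + 1)) {l : ℕ} (hl : l ≤ n) :
    ∑ A ∈ powersetCard l (univ : Finset (Fin n)), pw c A = 1 := by
  rw [sum_pw_eq]
  have h1 : ∀ σ ∈ ords c, (((powersetCard l (univ : Finset (Fin n))).filter
      fun A => pre σ A.card = A).card : ℝ) = 1 := by
    intro σ _
    have h2 : (powersetCard l (univ : Finset (Fin n))).filter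
        (fun A => pre σ A.card = A) = {pre σ l} := by
      ext A
      simp only [mem_filter, mem_powersetCard, subset_univ, true_and, mem_singleton]
      constructor
      · rintro ⟨h3, h4⟩
        rw [← h4, h3]
      · intro h3
        have h4 := card_pre σ hl
        rw [h3]
        exact ⟨h4, by rw [h4]⟩
    rw [h2]
    simp
  rw [Finset.sum_congr rfl h1]
  have h3 : ((ords c).card : ℝ) ≠ 0 := by
    have := (ords_nonempty c).card_pos
    positivity
  simp [h3]

theorem ex_one {n : ℕ} {X : Type} [Fintype X] [DecidableEq X] (p : X → ℝ)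
    (hp1 : ∑ a, p a = 1) : Ex p n (fun _ => 1) = 1 := by
  unfold Ex wt
  simp only [mul_one]
  have h := Finset.prod_univ_sum (fun _ : Fin n => (univ : Finset X)) (fun _ a => p a)
  rw [Fintype.piFinset_univ] at h
  rw [← h]
  simp [hp1]

theorem pw_comp {n m : ℕ} (c : Fin n → Fin (m + 1)) (τ : Equiv.Perm (Fin n))
    (A : Finset (Fin n)) : pw (c ∘ τ) A = pw c (A.map τ.toEmbedding) := by
  have hpre : ∀ (σ : Equiv.Perm (Fin n)) (l : ℕ), pre (τ * σ) l = (pre σ l).map τ.toEmbedding := by
    intro σ l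
    ext i
    simp only [mem_pre, mem_map, Equiv.coe_toEmbedding]
    constructor
    · intro h
      refine ⟨τ.symm i, ?_, by simp⟩
      have : (τ * σ).symm i = σ.symm (τ.symm i) := rfl
      rw [this] at h
      exact h
    · rintro ⟨j, hj, rfl⟩
      have : (τ * σ).symm (τ j) = σ.symm j := by
        have h : (τ * σ).symm (τ j) = σ.symm (τ.symm (τ j)) := rfl
        rw [h]
        simp
      rw [this]
      exact hj
  have hmem : ∀ σ : Equiv.Perm (Fin n), σ ∈ ords (c ∘ τ) ↔ τ * σ ∈ ords c := by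
    intro σ
    rw [mem_ords, mem_ords]
    have : c ∘ (τ : Fin n → Fin n) ∘ σ = c ∘ ((τ * σ : Equiv.Perm (Fin n)) : Fin n → Fin n) := by
      rfl
    rw [Function.comp_assoc, this]
  have hcard1 : (ords (c ∘ τ)).card = (ords c).card := by
    apply Finset.card_bij (fun σ _ => τ * σ)
    · intro σ hσ
      exact (hmem σ).mp hσ
    · intro a _ b _ hab
      exact mul_left_cancel hab
    · intro b hb
      refine ⟨τ⁻¹ * b, ?_, by simp⟩
      rw [hmem]
      simpa using hb
  have hcard2 : ((ords (c ∘ τ)).filter fun σ => pre σ A.card = A).card =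
      ((ords c).filter fun σ => pre σ (A.map τ.toEmbedding).card = A.map τ.toEmbedding).card := by
    apply Finset.card_bij (fun σ _ => τ * σ)
    · intro σ hσ
      rw [mem_filter] at hσ ⊢
      refine ⟨(hmem σ).mp hσ.1, ?_⟩
      rw [card_map, hpre, hσ.2]
    · intro a _ b _ hab
      exact mul_left_cancel hab
    · intro b hb
      rw [mem_filter, card_map] at hb
      refine ⟨τ⁻¹ * b, ?_, by simp⟩
      rw [mem_filter, hmem]
      refine ⟨by simpa using hb.1, ?_⟩
      have h1 := hpre (τ⁻¹ * b) A.card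
      rw [mul_inv_cancel_left, hb.2] at h1
      exact (Finset.map_injective _ h1).symm
  unfold pw
  rw [hcard1, hcard2]

theorem ex_perm {n m : ℕ} (p : Fin (m + 1) → ℝ) (τ : Equiv.Perm (Fin n)) (A : Finset (Fin n)) :
    Ex p n (fun c => pw c (A.map τ.toEmbedding)) = Ex p n (fun c => pw c A) := by
  unfold Ex
  symm
  have h := Equiv.sum_comp (Equiv.arrowCongr τ.symm (Equiv.refl (Fin (m + 1))))
    (fun c : Fin n → Fin (m + 1) => wt p c * pw c A)
  rw [← h]
  apply Finset.sum_congr rfl
  intro c _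
  have h1 : (Equiv.arrowCongr τ.symm (Equiv.refl (Fin (m + 1)))) c = c ∘ τ := by
    ext i
    simp [Equiv.arrowCongr]
  rw [h1, pw_comp]
  congr 1
  unfold wt
  exact Equiv.prod_comp τ (fun i => p (c i))

theorem exists_perm_map {n : ℕ} (A A' : Finset (Fin n)) (h : A.card = A'.card) :
    ∃ τ : Equiv.Perm (Fin n), A.map τ.toEmbedding = A' := by
  have e : {x // x ∈ A} ≃ {x // x ∈ A'} := Finset.equivOfCardEq h
  refine ⟨e.extendSubtype, ?_⟩
  apply Finset.eq_of_subset_of_card_le
  · intro i hi
    rw [mem_map] at hi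
    obtain ⟨j, hj, rfl⟩ := hi
    exact e.extendSubtype_mem j hj
  · rw [card_map, h]

theorem ex_pw {n m : ℕ} (p : Fin (m + 1) → ℝ) (hp : ∀ a, 0 ≤ p a) (hp1 : ∑ a, p a = 1)
    (A : Finset (Fin n)) : Ex p n (fun c => pw c A) = 1 / (n.choose A.card : ℝ) := by
  have _ := hp
  have hA : A.card ≤ n := by
    have := Finset.card_le_univ A
    simpa using this
  have h1 : ∑ A' ∈ powersetCard A.card (univ : Finset (Fin n)), Ex p n (fun c => pw c A') = 1 := by
    unfold Ex
    rw [Finset.sum_comm]
    have h2 : ∀ c ∈ (univ : Finset (Fin n → Fin (m + 1))),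
        ∑ A' ∈ powersetCard A.card (univ : Finset (Fin n)), wt p c * pw c A' = wt p c * 1 := by
      intro c _
      rw [← Finset.mul_sum, sum_pw_powersetCard c hA]
    rw [Finset.sum_congr rfl h2]
    exact ex_one p hp1
  have h3 : ∀ A' ∈ powersetCard A.card (univ : Finset (Fin n)),
      Ex p n (fun c => pw c A') = Ex p n (fun c => pw c A) := by
    intro A' hA'
    rw [mem_powersetCard] at hA'
    obtain ⟨τ, hτ⟩ := exists_perm_map A A' hA'.2.symm
    rw [← hτ, ex_perm]
  rw [Finset.sum_congr rfl h3, Finset.sum_const, card_powersetCard, card_univ, Fintype.card_fin,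
    nsmul_eq_mul] at h1
  have h4 : (n.choose A.card : ℝ) ≠ 0 := by
    have := Nat.choose_pos hA
    positivity
  field_simp
  linarith

theorem compatible_of_pw_pos {n m : ℕ} (c : Fin n → Fin (m + 1)) (A : Finset (Fin n))
    (h : 0 < pw c A) (j : ℕ) : A ⊆ B j c ∨ B j c ⊆ A := by
  have h1 : ((ords c).filter fun σ => pre σ A.card = A).Nonempty := by
    rw [nonempty_iff_ne_empty]
    intro h2
    unfold pw at h
    rw [h2] at h
    simp at h
  obtain ⟨σ, hσ⟩ := h1
  rw [mem_filter, mem_ords] at hσ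
  obtain ⟨hmono, hpre⟩ := hσ
  by_contra hcon
  rw [not_or] at hcon
  obtain ⟨hA, hB⟩ := hcon
  rw [Finset.not_subset] at hA hB
  obtain ⟨i, hiA, hiB⟩ := hA
  obtain ⟨i', hiB', hiA'⟩ := hB
  rw [← hpre, mem_pre] at hiA hiA'
  simp only [B, mem_filter, mem_univ, true_and, not_lt] at hiB hiB'
  have h3 : σ.symm i ≤ σ.symm i' := by
    rw [Fin.le_def]
    omega
  have h4 := hmono h3
  simp only [Function.comp_apply, Equiv.apply_symm_apply, Fin.le_def] at h4
  omega

end Pool.Agent.F155AS
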