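import Pool.Agent.F155AS.Defs

/-! Chebyshev bound for the net property.

PROOF. `Ex p n (fun c => (∑ i, φ (c i)) ^ 2) = n * ∑ a, p a * φ a ^ 2` if `∑ a, p a * φ a = 0`
(expand, or induction on `n` with `Fin.consEquiv`); Markov; union bound over the two end
conditions (`(B 1 c).card` has mean `n/2 - J η √n` and variance at most `n/4`; the same for
`n - (B (2J+1) c).card`) and the `2J` middle classes (class size: mean `η √n`, variance at most
`η √n`, so it exceeds `2 η √n` with probability at most `1/(η √n)`). -/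

set_option autoImplicit false

namespace Pool.Agent.F155AS

open Finset

theorem chb_succ {X : Type} [Fintype X] (p : X → ℝ) (n : ℕ) (f : (Fin (n + 1) → X) → ℝ) :
    Ex p (n + 1) f = ∑ a, p a * Ex p n (fun c => f (Fin.cons a c)) := by
  unfold Ex wt
  rw [← (Fin.consEquiv (fun _ : Fin (n + 1) => X)).sum_comp, Fintype.sum_prod_type]
  apply Finset.sum_congr rfl
  intro a _
  rw [Finset.mul_sum]
  apply Finset.sum_congr rfl
  intro c _
  have h1 : (Fin.consEquiv (fun _ : Fin (n + 1) => X)) (a, c) = Fin.cons a c := rfl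
  rw [h1, Fin.prod_univ_succ]
  simp only [Fin.cons_zero, Fin.cons_succ]
  ring

theorem chb_add {X : Type} [Fintype X] (p : X → ℝ) (n : ℕ) (f g : (Fin n → X) → ℝ) :
    Ex p n (fun c => f c + g c) = Ex p n f + Ex p n g := by
  unfold Ex
  rw [← Finset.sum_add_distrib]
  apply Finset.sum_congr rfl
  intro c _
  ring

theorem chb_smul {X : Type} [Fintype X] (p : X → ℝ) (n : ℕ) (r : ℝ) (f : (Fin n → X) → ℝ) :
    Ex p n (fun c => r * f c) = r * Ex p n f := by
  unfold Ex
  rw [Finset.mul_sum]
  apply Finset.sum_congr rfl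
  intro c _
  ring

theorem chb_sum {X : Type} [Fintype X] (p : X → ℝ) (n : ℕ) {ι : Type} (s : Finset ι)
    (f : ι → (Fin n → X) → ℝ) :
    Ex p n (fun c => ∑ k ∈ s, f k c) = ∑ k ∈ s, Ex p n (f k) := by
  unfold Ex
  rw [Finset.sum_comm]
  apply Finset.sum_congr rfl
  intro c _
  rw [Finset.mul_sum]

theorem chb_mono {X : Type} [Fintype X] (p : X → ℝ) (hp : ∀ a, 0 ≤ p a) (n : ℕ)
    (f g : (Fin n → X) → ℝ) (h : ∀ c, f c ≤ g c) : Ex p n f ≤ Ex p n g := by
  unfold Ex
  apply Finset.sum_le_sum
  intro c _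
  apply mul_le_mul_of_nonneg_left (h c)
  unfold wt
  exact Finset.prod_nonneg fun i _ => hp _

theorem chb_one {X : Type} [Fintype X] (p : X → ℝ) (hp1 : ∑ a, p a = 1) (n : ℕ) :
    Ex p n (fun _ => 1) = 1 := by
  induction n with
  | zero => simp [Ex, wt]
  | succ n ih =>
    rw [chb_succ]
    simp only [ih, mul_one]
    exact hp1

theorem chb_mean {X : Type} [Fintype X] (p : X → ℝ) (hp1 : ∑ a, p a = 1) (φ : X → ℝ)
    (hφ : ∑ a, p a * φ a = 0) (n : ℕ) : Ex p n (fun c => ∑ i, φ (c i)) = 0 := by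
  induction n with
  | zero => simp [Ex, wt]
  | succ n ih =>
    rw [chb_succ]
    have h1 : ∀ a, Ex p n (fun c => ∑ i, φ ((Fin.cons a c : Fin (n + 1) → X) i)) = φ a := by
      intro a
      have h2 : (fun c : Fin n → X => ∑ i, φ ((Fin.cons a c : Fin (n + 1) → X) i)) =
          fun c => φ a * 1 + ∑ i, φ (c i) := by
        funext c
        rw [Fin.sum_univ_succ]
        simp
      rw [h2, chb_add, chb_smul, chb_one p hp1, ih]
      ring
    simp only [h1]
    exact hφ

theorem chb_var {X : Type} [Fintype X] (p : X → ℝ) (hp1 : ∑ a, p a = 1) (φ : X → ℝ)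
    (hφ : ∑ a, p a * φ a = 0) (n : ℕ) :
    Ex p n (fun c => (∑ i, φ (c i)) ^ 2) = n * ∑ a, p a * φ a ^ 2 := by
  induction n with
  | zero => simp [Ex, wt]
  | succ n ih =>
    rw [chb_succ]
    have h1 : ∀ a, Ex p n (fun c => (∑ i, φ ((Fin.cons a c : Fin (n + 1) → X) i)) ^ 2) =
        φ a ^ 2 + n * ∑ a, p a * φ a ^ 2 := by
      intro a
      have h2 : (fun c : Fin n → X => (∑ i, φ ((Fin.cons a c : Fin (n + 1) → X) i)) ^ 2) =
          fun c => (φ a ^ 2 * 1 + (2 * φ a) * ∑ i, φ (c i)) + (∑ i, φ (c i)) ^ 2 := by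
        funext c
        rw [Fin.sum_univ_succ]
        simp only [Fin.cons_zero, Fin.cons_succ]
        ring
      rw [h2, chb_add, chb_add, chb_smul, chb_smul, chb_one p hp1, chb_mean p hp1 φ hφ, ih]
      ring
    simp only [h1]
    simp only [mul_add, Finset.sum_add_distrib]
    rw [← Finset.sum_mul, hp1]
    push_cast
    ring

/-- number of points of colour `a` -/
noncomputable def cnt {n m : ℕ} (a : Fin (m + 1)) (c : Fin n → Fin (m + 1)) : ℝ :=
  ((univ.filter fun i => c i = a).card : ℝ)

theorem chb_cnt {m : ℕ} (p : Fin (m + 1) → ℝ) (hp1 : ∑ a, p a = 1) (a : Fin (m + 1)) (n : ℕ) :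
    Ex p n (fun c => (cnt a c - n * p a) ^ 2) = n * (p a * (1 - p a)) := by
  have h1 : ∀ c : Fin n → Fin (m + 1), cnt a c - n * p a =
      ∑ i, (fun b : Fin (m + 1) => (if b = a then (1 : ℝ) else 0) - p a) (c i) := by
    intro c
    unfold cnt
    rw [card_filter]
    push_cast
    simp only [Finset.sum_sub_distrib, Finset.sum_const, card_univ, Fintype.card_fin,
      nsmul_eq_mul]
  have hind : ∀ b : Fin (m + 1), p b * (if b = a then (1 : ℝ) else 0) = if b = a then p a else 0 := by
    intro b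
    split_ifs with h
    · rw [h, mul_one]
    · ring
  have h2 : ∑ b, p b * ((fun b : Fin (m + 1) => (if b = a then (1 : ℝ) else 0) - p a) b) = 0 := by
    simp only [mul_sub, Finset.sum_sub_distrib, hind]
    rw [← Finset.sum_mul, hp1]
    simp
  have h3 := chb_var p hp1 _ h2 n
  simp only [h1]
  rw [h3]
  congr 1
  have h4 : ∀ b : Fin (m + 1), p b * ((if b = a then (1 : ℝ) else 0) - p a) ^ 2 =
      (if b = a then p a else 0) * (1 - 2 * p a) + p b * p a ^ 2 := by
    intro b
    split_ifs with h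
    · rw [h]; ring
    · ring
  simp only [h4]
  rw [Finset.sum_add_distrib, ← Finset.sum_mul, ← Finset.sum_mul, hp1]
  simp only [Finset.sum_ite_eq', mem_univ, if_true]
  ring

theorem card_B_succ {n m : ℕ} (a : Fin (m + 1)) (c : Fin n → Fin (m + 1)) :
    ((B ((a : ℕ) + 1) c).card : ℝ) = (B (a : ℕ) c).card + cnt a c := by
  unfold cnt
  rw [← Nat.cast_add, ← card_union_of_disjoint]
  · congr 2
    ext i
    simp only [B, mem_filter, mem_univ, true_and, mem_union, Fin.ext_iff]
    omega
  · rw [disjoint_left]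
    intro i hi hi'
    simp only [B, mem_filter, mem_univ, true_and, Fin.ext_iff] at hi hi'
    omega

theorem sum_law (J : ℕ) (h : ℝ) : ∑ a, law J h a = 1 := by
  unfold law
  rw [Fin.sum_univ_succ, Fin.sum_univ_castSucc]
  have h1 : ∀ x : Fin (2 * J), ¬ (((x.castSucc.succ : Fin (2 * J + 1 + 1)) : ℕ) = 0 ∨
      ((x.castSucc.succ : Fin (2 * J + 1 + 1)) : ℕ) = 2 * J + 1) := by
    intro x
    have := x.isLt
    simp only [Fin.val_succ, Fin.val_castSucc]
    omega
  simp only [h1, if_false]
  simp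
  ring

open Classical in
theorem bad_le (J : ℕ) (η K : ℝ) (n : ℕ) (hn : 0 < n) (hη : 0 < η) (hK : 0 ≤ K)
    (hJ : K < J * η) (hh : J * (η / Real.sqrt n) < 1 / 2) :
    Ex (law J (η / Real.sqrt n)) n
      (fun c => if Good (K * Real.sqrt n) (2 * η * Real.sqrt n) c then 0 else 1)
      ≤ 1 / (2 * (J * η - K) ^ 2) + 2 * J / (η * Real.sqrt n) := by
  have _ := hK
  set S : ℝ := Real.sqrt n with hS
  have hn0 : (0 : ℝ) < n := by exact_mod_cast hn
  have hS0 : 0 < S := Real.sqrt_pos.mpr hn0
  have hSS : S * S = n := Real.mul_self_sqrt hn0.le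
  set h : ℝ := η / S with hhdef
  have hh0 : 0 < h := div_pos hη hS0
  set p := law J h with hpdef
  have hp1 : ∑ a, p a = 1 := sum_law J h
  have hp0 : ∀ a, 0 ≤ p a := by
    intro a
    rw [hpdef]
    unfold law
    split_ifs
    · linarith
    · exact hh0.le
  set q : ℝ := 1 / 2 - J * h with hq
  have hnh : (n : ℝ) * h = η * S := by
    rw [hhdef, ← hSS]
    field_simp
  have hnq : (n : ℝ) * q = n / 2 - J * (η * S) := by
    rw [hq, mul_sub, ← hnh]
    ring
  set T : ℝ := (J * η - K) * S with hT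
  have hT0 : 0 < T := mul_pos (by linarith) hS0
  set U : ℝ := η * S with hU
  have hU0 : 0 < U := mul_pos hη hS0
  -- first and last colour
  let a0 : Fin (2 * J + 1 + 1) := 0
  let a1 : Fin (2 * J + 1 + 1) := Fin.last (2 * J + 1)
  have hpa0 : p a0 = q := by simp [p, law, a0, q]
  have hpa1 : p a1 = q := by simp [p, law, a1, q]
  let mid : Finset (Fin (2 * J + 1 + 1)) := univ.filter fun a => a ≠ a0 ∧ a ≠ a1
  have hpm : ∀ a ∈ mid, p a = h := by
    intro a ha
    simp only [mid, a0, a1, mem_filter, mem_univ, true_and, ne_eq, Fin.ext_iff, Fin.val_zero,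
      Fin.val_last] at ha
    simp only [p, law]
    rw [if_neg]
    omega
  have hmid : (mid.card : ℝ) ≤ 2 * J := by
    have h1 : mid ⊆ (univ.erase a0).erase a1 := by
      intro a ha
      simp only [mid, mem_filter, mem_univ, true_and] at ha
      simp [ha.1, ha.2]
    have h2 : ((univ.erase a0).erase a1).card = 2 * J := by
      rw [card_erase_of_mem, card_erase_of_mem (mem_univ _), card_univ, Fintype.card_fin]
      · omega
      · simp only [mem_erase, mem_univ, and_true, ne_eq, a0, a1, Fin.ext_iff, Fin.val_zero,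
          Fin.val_last]
        omega
    have h3 := card_le_card h1
    rw [h2] at h3
    exact_mod_cast h3
  -- pointwise bound
  have hpt : ∀ c : Fin n → Fin (2 * J + 1 + 1),
      (if Good (K * S) (2 * η * S) c then (0 : ℝ) else 1) ≤
        (1 / T ^ 2 * (cnt a0 c - n * p a0) ^ 2 + 1 / T ^ 2 * (cnt a1 c - n * p a1) ^ 2) +
          ∑ a ∈ mid, 1 / U ^ 2 * (cnt a c - n * p a) ^ 2 := by
    intro c
    have hs0 : 0 ≤ ∑ a ∈ mid, 1 / U ^ 2 * (cnt a c - n * p a) ^ 2 :=
      Finset.sum_nonneg fun a _ => by positivity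
    have hA : 0 ≤ 1 / T ^ 2 * (cnt a0 c - n * p a0) ^ 2 := by positivity
    have hB : 0 ≤ 1 / T ^ 2 * (cnt a1 c - n * p a1) ^ 2 := by positivity
    split_ifs with hg
    · linarith
    · unfold Good at hg
      have key : ∀ (W x : ℝ), 0 < W → W ≤ x → 1 ≤ 1 / W ^ 2 * x ^ 2 := by
        intro W x hW hWx
        rw [one_div, inv_mul_eq_div, one_le_div (by positivity)]
        nlinarith
      by_cases h1 : ((B 1 c).card : ℝ) ≤ n / 2 - K * S
      · by_cases h2 : (n : ℝ) / 2 + K * S ≤ (B (2 * J + 1) c).card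
        · have h3 : ¬ ∀ j, 1 ≤ j → j < 2 * J + 1 →
              ((B (j + 1) c).card : ℝ) ≤ (B j c).card + 2 * η * S := fun h3 => hg ⟨h1, h2, h3⟩
          push Not at h3
          obtain ⟨j, hj1, hj2, hj3⟩ := h3
          let a : Fin (2 * J + 1 + 1) := ⟨j, by omega⟩
          have ha : a ∈ mid := by
            simp only [mid, a0, a1, a, mem_filter, mem_univ, true_and, ne_eq, Fin.ext_iff,
              Fin.val_zero, Fin.val_last]
            omega
          have h4 := card_B_succ a c
          have h5 : (a : ℕ) = j := rfl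
          rw [h5] at h4
          have h6 : U ≤ cnt a c - n * p a := by
            rw [hpm a ha, hnh]
            linarith
          have h7 := key U _ hU0 h6
          have h8 : 1 / U ^ 2 * (cnt a c - n * p a) ^ 2 ≤
              ∑ a ∈ mid, 1 / U ^ 2 * (cnt a c - n * p a) ^ 2 :=
            Finset.single_le_sum (f := fun a => 1 / U ^ 2 * (cnt a c - n * p a) ^ 2)
              (fun a _ => by positivity) ha
          linarith
        · push Not at h2
          have h4 := card_B_succ a1 c
          have h5 : (a1 : ℕ) = 2 * J + 1 := by simp [a1]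
          rw [h5] at h4
          have h6 : B (2 * J + 1 + 1) c = univ := by
            ext i
            simp only [B, mem_filter, mem_univ, true_and, iff_true]
            exact (c i).isLt
          rw [h6, card_univ, Fintype.card_fin] at h4
          have h7 : T ≤ cnt a1 c - n * p a1 := by
            rw [hpa1, hnq, hT]
            nlinarith
          have h8 := key T _ hT0 h7
          linarith
      · push Not at h1
        have h4 := card_B_succ a0 c
        have h5 : (a0 : ℕ) = 0 := by simp [a0]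
        rw [h5] at h4
        have h6 : B 0 c = ∅ := by
          ext i
          simp [B]
        rw [h6, card_empty, Nat.cast_zero, zero_add, zero_add] at h4
        have h7 : T ≤ cnt a0 c - n * p a0 := by
          rw [hpa0, hnq, hT, ← h4]
          nlinarith
        have h8 := key T _ hT0 h7
        linarith
  -- expectation
  have hE := chb_mono p hp0 n _ _ hpt
  refine hE.trans ?_
  rw [chb_add, chb_add, chb_smul, chb_smul, chb_sum]
  simp only [chb_smul]
  rw [chb_cnt p hp1, chb_cnt p hp1, hpa0, hpa1]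
  have hsum : ∑ a ∈ mid, 1 / U ^ 2 * Ex p n (fun c => (cnt a c - n * p a) ^ 2) ≤
      2 * J * (1 / (η * S)) := by
    have h1 : ∀ a ∈ mid, 1 / U ^ 2 * Ex p n (fun c => (cnt a c - n * p a) ^ 2) ≤ 1 / (η * S) := by
      intro a ha
      rw [chb_cnt p hp1, hpm a ha]
      have h2 : (n : ℝ) * (h * (1 - h)) ≤ U := by
        have : (n : ℝ) * (h * (1 - h)) = (n * h) * (1 - h) := by ring
        rw [this, hnh]
        nlinarith
      calc 1 / U ^ 2 * ((n : ℝ) * (h * (1 - h))) ≤ 1 / U ^ 2 * U := by
            apply mul_le_mul_of_nonneg_left h2 (by positivity)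
        _ = 1 / (η * S) := by
            rw [hU]
            field_simp
    calc ∑ a ∈ mid, 1 / U ^ 2 * Ex p n (fun c => (cnt a c - n * p a) ^ 2)
        ≤ ∑ a ∈ mid, 1 / (η * S) := Finset.sum_le_sum h1
      _ = mid.card * (1 / (η * S)) := by rw [Finset.sum_const, nsmul_eq_mul]
      _ ≤ 2 * J * (1 / (η * S)) := mul_le_mul_of_nonneg_right hmid (by positivity)
  have hq1 : (n : ℝ) * (q * (1 - q)) ≤ n / 4 := by
    have : q * (1 - q) ≤ 1 / 4 := by nlinarith [sq_nonneg (q - 1 / 2)]
    nlinarith
  have hends : 1 / T ^ 2 * ((n : ℝ) * (q * (1 - q))) + 1 / T ^ 2 * ((n : ℝ) * (q * (1 - q))) ≤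
      1 / (2 * (J * η - K) ^ 2) := by
    have h1 : 1 / T ^ 2 * ((n : ℝ) * (q * (1 - q))) ≤ 1 / T ^ 2 * (n / 4) :=
      mul_le_mul_of_nonneg_left hq1 (by positivity)
    have h2 : 1 / T ^ 2 * ((n : ℝ) / 4) = 1 / (4 * (J * η - K) ^ 2) := by
      have hne : (J * η - K) ≠ 0 := by
        have : 0 < J * η - K := by linarith
        exact this.ne'
      rw [hT, ← hSS]
      field_simp
    have h3 : 1 / (2 * (J * η - K) ^ 2) = 1 / (4 * (J * η - K) ^ 2) + 1 / (4 * (J * η - K) ^ 2) := by
      have hne : (J * η - K) ≠ 0 := by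
        have : 0 < J * η - K := by linarith
        exact this.ne'
      field_simp
      norm_num
    rw [h3]
    linarith
  have hfin : 2 * (J : ℝ) * (1 / (η * S)) = 2 * J / (η * S) := by ring
  rw [hfin] at hsum
  linarith

end Pool.Agent.F155AS
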