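import Pool.Agent.F155AS.Terminal
import Pool.Agent.F155AS.Cheb

/-! The main inequality, for one value of `n`. -/

set_option autoImplicit false

namespace Pool.Agent.F155AS

open Finset

section ex

variable {X : Type} [Fintype X]

theorem ex_mono' (p : X → ℝ) (hp : ∀ a, 0 ≤ p a) (n : ℕ) (f g : (Fin n → X) → ℝ)
    (h : ∀ c, f c ≤ g c) : Ex p n f ≤ Ex p n g :=
  sum_le_sum fun c _ => mul_le_mul_of_nonneg_left (h c) (prod_nonneg fun _ _ => hp _)

theorem ex_add' (p : X → ℝ) (n : ℕ) (f g : (Fin n → X) → ℝ) :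
    Ex p n (fun c => f c + g c) = Ex p n f + Ex p n g := by
  unfold Ex; rw [← sum_add_distrib]; exact sum_congr rfl fun c _ => by ring

theorem ex_smul' (p : X → ℝ) (n : ℕ) (x : ℝ) (f : (Fin n → X) → ℝ) :
    Ex p n (fun c => x * f c) = x * Ex p n f := by
  unfold Ex; rw [mul_sum]; exact sum_congr rfl fun c _ => by ring

theorem ex_sum' {ι : Type} (p : X → ℝ) (n : ℕ) (F : Finset ι) (f : ι → (Fin n → X) → ℝ) :
    Ex p n (fun c => ∑ a ∈ F, f a c) = ∑ a ∈ F, Ex p n (f a) := by
  unfold Ex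
  simp only [mul_sum]
  rw [sum_comm]

end ex

theorem law_sum' (J : ℕ) (h : ℝ) : ∑ a, law J h a = 1 := by
  have h1 := cum_law J h (2 * J + 1) (by omega) le_rfl
  have h2 := cum_succ' (law J h) (Fin.last (2 * J + 1))
  rw [Fin.val_last, cum_top, h1] at h2
  rw [h2]
  unfold law
  simp
  ring

open Classical in
theorem core (J n : ℕ) (hn : 0 < n) (η K : ℝ) (hη : 0 < η) (hK : 0 < K) (hJ : K < J * η)
    (hh : J * (η / Real.sqrt n) < 1 / 2) (k : ℕ) (hk : k ≤ n)
    (F : Finset (Finset (Fin n))) (hF : IsAntichain (· ⊆ ·) (F : Set (Finset (Fin n))))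
    (hd : ∀ A ∈ F, ∀ A' ∈ F, (symmDiff A A').card ≤ n - k)
    (β L L' kap t e δ err P : ℝ) (hβ : 0 < β) (hL : 0 ≤ L) (hδ : 0 ≤ δ)
    (ht : t = K * Real.sqrt n) (he : e = 2 * η * Real.sqrt n)
    (hbin : ∀ l : ℕ, l ≤ n → |(l : ℝ) - n / 2| ≤ t →
      (n.choose l : ℝ) ≤ Real.exp (-(2 * ((l : ℝ) - n / 2) ^ 2 / n) + δ) * n.choose (n / 2))
    (htail : ∀ l : ℕ, l ≤ n → t ≤ |(l : ℝ) - n / 2| →
      (n.choose l : ℝ) ≤ Real.exp (-(2 * K ^ 2) + δ) * n.choose (n / 2))
    (hLk : L * k ≤ 2 * K ^ 2) (herr : δ + 2 * L * e + 8 * (t * e + e ^ 2) / n ≤ err)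
    (hsmall : β * (L + 4 * (2 * (J * (η / Real.sqrt n)))) ≤ 1)
    (hL' : L' = L + β * (L + 4 * (2 * (J * (η / Real.sqrt n)))) ^ 2) (hkap : kap = L' ^ 2 / 8)
    (hP : P = 1 / (2 * (J * η - K) ^ 2) + 2 * J / (η * Real.sqrt n)) :
    ((F.card : ℝ) / n.choose (n / 2) - P) * Real.exp (-(n * kap + err)) ≤
      Real.exp (-(L * k / 2) + L * k * P + 1 / β * Real.log ((2 * J + 1) * (2 * J + 1))) := by
  have hn' : (0 : ℝ) < n := by exact_mod_cast hn
  have hsn : 0 < Real.sqrt n := Real.sqrt_pos.2 hn'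
  have hM := mid_pos (n := n)
  set h := η / Real.sqrt n with hhdef
  have hh0 : 0 < h := div_pos hη hsn
  set p := law J h with hp
  have hp0 : ∀ a, 0 < p a := law_pos J h hh0 hh
  have hp1 : ∑ a, p a = 1 := law_sum' J h
  have hprev : ∀ a, p (Fin.rev a) = p a := law_rev J h
  have ht0 : 0 < t := by rw [ht]; positivity
  have he0 : 0 ≤ e := by rw [he]; positivity
  have hbad := bad_le J η K n hn hη hK.le hJ hh
  rw [← hhdef, ← hp, ← ht, ← he, ← hP] at hbad
  have hP0 : 0 ≤ P := le_trans (sum_nonneg fun c _ => mul_nonneg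
    (prod_nonneg fun i _ => (hp0 _).le) (by split_ifs <;> norm_num)) hbad
  -- the product induction
  have hcum : ∀ i : Fin (2 * J + 1), cum p ((i : ℕ) + 1) = 1 / 2 + ((i : ℝ) - J) * h := by
    intro i
    rw [hp, cum_law J h (i + 1) (by omega) (by omega)]
    push_cast
    ring
  have hsite : Site p β (fun ij : Fin (2 * J + 1) × Fin (2 * J + 1) =>
      inc p L kap ((ij.1 : ℕ) + 1, (ij.2 : ℕ) + 1)) := by
    refine one_site (fun ij : Fin (2 * J + 1) × Fin (2 * J + 1) =>
      ((ij.1 : ℕ) + 1, (ij.2 : ℕ) + 1)) p hp0 hp1 β L (2 * (J * h)) L' kap hβ hL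
      (by positivity) ?_ hsmall hL' hkap
    intro ij
    simp only [hcum]
    have h1 : ((ij.1 : ℕ) : ℝ) ≤ 2 * J := by
      have := ij.1.2
      exact_mod_cast (by omega : (ij.1 : ℕ) ≤ 2 * J)
    have h2 : ((ij.2 : ℕ) : ℝ) ≤ 2 * J := by
      have := ij.2.2
      exact_mod_cast (by omega : (ij.2 : ℕ) ≤ 2 * J)
    have h3 : (0 : ℝ) ≤ (ij.1 : ℕ) := Nat.cast_nonneg _
    have h4 : (0 : ℝ) ≤ (ij.2 : ℕ) := Nat.cast_nonneg _
    rw [abs_le]
    constructor <;> nlinarith
  have hpt := pt p hp0 β hβ _ hsite n (Gf t e (n * kap + err) F) (Rf L t e k F) (by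
      intro c
      unfold Gf
      split_ifs
      · exact mul_nonneg (sum_nonneg fun A _ => mul_nonneg (pw_nonneg c A) (by positivity))
          (Real.exp_pos _).le
      · exact le_rfl) (fun _ => 1) (fun _ => one_pos) (by
      intro c' c
      obtain ⟨ij, hij⟩ := terminal hn (by omega) p k F hF L kap t e δ err K hL ht0 he0 hδ
        hbin htail hLk herr c' c
      refine hij.trans (Real.exp_le_exp.2 ?_)
      have h1 : Real.exp (β * ∑ l, inc p L kap ((ij.1 : ℕ) + 1, (ij.2 : ℕ) + 1) (c' l) (c l)) ≤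
          ∑ j : Fin (2 * J + 1) × Fin (2 * J + 1), 1 * Real.exp (β * ∑ l,
            inc p L kap ((j.1 : ℕ) + 1, (j.2 : ℕ) + 1) (c' l) (c l)) := by
        simp only [one_mul]
        exact single_le_sum (f := fun j : Fin (2 * J + 1) × Fin (2 * J + 1) =>
          Real.exp (β * ∑ l, inc p L kap ((j.1 : ℕ) + 1, (j.2 : ℕ) + 1) (c' l) (c l)))
          (fun j _ => (Real.exp_pos _).le) (mem_univ ij)
      have h2 := Real.log_le_log (Real.exp_pos _) h1
      rw [Real.log_exp] at h2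
      have h3 := mul_le_mul_of_nonneg_left h2 (by positivity : (0 : ℝ) ≤ 1 / β)
      have h4 : 1 / β * (β * ∑ l, inc p L kap ((ij.1 : ℕ) + 1, (ij.2 : ℕ) + 1) (c' l) (c l)) =
          ∑ l, inc p L kap ((ij.1 : ℕ) + 1, (ij.2 : ℕ) + 1) (c' l) (c l) := by
        field_simp
      rw [h4] at h3
      linarith)
  have hcard : ∑ _j : Fin (2 * J + 1) × Fin (2 * J + 1), (1 : ℝ) = (2 * J + 1) * (2 * J + 1) := by
    simp
  rw [hcard] at hpt
  -- lower bound for the mean of G
  set bad : (Fin n → Fin (2 * J + 1 + 1)) → ℝ := fun c => if Good t e c then 0 else 1 with hbd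
  have hG : ((F.card : ℝ) / n.choose (n / 2) - P) * Real.exp (-(n * kap + err)) ≤
      Ex p n (Gf t e (n * kap + err) F) := by
    have h1 : Ex p n (fun c => Real.exp (-(n * kap + err)) * ((∑ A ∈ F,
        ((n.choose A.card : ℝ) / n.choose (n / 2)) * pw c A) + (-1) * bad c)) ≤
        Ex p n (Gf t e (n * kap + err) F) := by
      refine ex_mono' p (fun a => (hp0 a).le) n _ _ fun c => ?_
      have h2 : ∑ A ∈ F, ((n.choose A.card : ℝ) / n.choose (n / 2)) * pw c A =
          ∑ A ∈ F, pw c A * ((n.choose A.card : ℝ) / n.choose (n / 2)) :=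
        sum_congr rfl fun A _ => mul_comm _ _
      rw [h2]
      unfold Gf
      simp only [hbd]
      split_ifs with hc
      · linarith
      · have h3 : ∑ A ∈ F, pw c A * ((n.choose A.card : ℝ) / n.choose (n / 2)) ≤ 1 := by
          refine le_trans (sum_le_sum fun A _ => ?_) (sum_pw_le_one c F hF)
          exact mul_le_of_le_one_right (pw_nonneg c A) (ratio_le_one _)
        exact mul_nonpos_of_nonneg_of_nonpos (Real.exp_pos _).le (by linarith)
    rw [ex_smul', ex_add', ex_sum', ex_smul'] at h1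
    have h4 : ∀ A ∈ F, Ex p n (fun c => ((n.choose A.card : ℝ) / n.choose (n / 2)) * pw c A) =
        1 / (n.choose (n / 2) : ℝ) := by
      intro A _
      rw [ex_smul', ex_pw p (fun a => (hp0 a).le) hp1 A]
      have hA : (0 : ℝ) < n.choose A.card := by
        exact_mod_cast Nat.choose_pos (by simpa using card_le_univ A)
      field_simp
    rw [sum_congr rfl h4, sum_const, nsmul_eq_mul] at h1
    refine le_trans ?_ h1
    rw [mul_comm]
    refine mul_le_mul_of_nonneg_left ?_ (Real.exp_pos _).le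
    rw [mul_one_div]
    linarith
  -- upper bound for the mean of R
  have hR : Ex p n (Rf L t e k F) ≤ -(L * k / 2) + L * k * P := by
    have h1 : Ex p n (Rf L t e k F) ≤ Ex p n (fun c => (-L) * dt k F c + (L * k) * bad c) := by
      refine ex_mono' p (fun a => (hp0 a).le) n _ _ fun c => ?_
      unfold Rf
      simp only [hbd]
      split_ifs with hc
      · linarith
      · have := mul_le_mul_of_nonneg_left (dt_le_k k F c) hL
        linarith
    rw [ex_add', ex_smul', ex_smul'] at h1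
    have h2 := half_le p (fun a => (hp0 a).le) hp1 hprev k hk F hd
    have h3 := mul_le_mul_of_nonneg_left h2 hL
    have h4 : L * k * Ex p n bad ≤ L * k * P :=
      mul_le_mul_of_nonneg_left hbad (by positivity)
    linarith
  refine hG.trans (hpt.trans (Real.exp_le_exp.2 ?_))
  linarith

end Pool.Agent.F155AS
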