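import Mathlib

/-! Definitions for the asymptotic form of the diameter theorem for antichains.

A colouring `c : Fin n → Fin (m + 1)` of the points gives the chain `B 1 c ⊆ ... ⊆ B m c`. -/

set_option autoImplicit false

namespace Pool.Agent.F155AS

open Finset

/-- product weight of a colouring -/
noncomputable def wt {X : Type} (p : X → ℝ) {n : ℕ} (c : Fin n → X) : ℝ := ∏ i, p (c i)

/-- expectation with respect to the product weight -/
noncomputable def Ex {X : Type} [Fintype X] (p : X → ℝ) (n : ℕ) (f : (Fin n → X) → ℝ) : ℝ :=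
  ∑ c : Fin n → X, wt p c * f c

/-- indicator of colour `< j` -/
noncomputable def ind {m : ℕ} (j : ℕ) (a : Fin (m + 1)) : ℝ := if (a : ℕ) < j then 1 else 0

/-- distribution function: mass of the colours `< j` -/
noncomputable def cum {m : ℕ} (r : Fin (m + 1) → ℝ) (j : ℕ) : ℝ := ∑ a, r a * ind j a

/-- the set of points of colour `< j` -/
def B {n m : ℕ} (j : ℕ) (c : Fin n → Fin (m + 1)) : Finset (Fin n) :=
  univ.filter fun i => (c i : ℕ) < j

open Classical in
/-- orders of the points along which the colour is nondecreasing -/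
noncomputable def ords {n m : ℕ} (c : Fin n → Fin (m + 1)) : Finset (Equiv.Perm (Fin n)) :=
  univ.filter fun σ => Monotone (c ∘ σ)

/-- the first `l` points of the order `σ` -/
def pre {n : ℕ} (σ : Equiv.Perm (Fin n)) (l : ℕ) : Finset (Fin n) :=
  univ.filter fun i => (σ.symm i : ℕ) < l

/-- proportion of the nondecreasing orders of `c` which have `A` as an initial segment -/
noncomputable def pw {n m : ℕ} (c : Fin n → Fin (m + 1)) (A : Finset (Fin n)) : ℝ :=
  (((ords c).filter fun σ => pre σ A.card = A).card : ℝ) / (ords c).card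

/-- the chain of the colouring is a net of the levels between `n/2 - t` and `n/2 + t` -/
def Good {n m : ℕ} (t e : ℝ) (c : Fin n → Fin (m + 1)) : Prop :=
  ((B 1 c).card : ℝ) ≤ n / 2 - t ∧ (n : ℝ) / 2 + t ≤ (B m c).card ∧
    ∀ j, 1 ≤ j → j < m → ((B (j + 1) c).card : ℝ) ≤ (B j c).card + e

/-- the law of a colour: `2 J` middle colours of mass `h`, the two end colours share the rest -/
noncomputable def law (J : ℕ) (h : ℝ) : Fin (2 * J + 1 + 1) → ℝ := fun a =>
  if (a : ℕ) = 0 ∨ (a : ℕ) = 2 * J + 1 then 1 / 2 - J * h else h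

end Pool.Agent.F155AS
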