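import Pool.Agent.F155AS.Core
import Pool.Agent.F155AS.Binom

/-! The window `k² ≤ K n`. -/

set_option autoImplicit false

namespace Pool.Agent.F155AS

open Finset

theorem exp_le_two (x : ℝ) (h0 : 0 ≤ x) (h1 : x ≤ 1) : Real.exp x ≤ 1 + 2 * x := by
  have := exp_sub_one_le x h1
  nlinarith

/-- the parameters, for one value of `n` -/
theorem window_aux (Kc ε : ℝ) (hKc : 0 ≤ Kc) (hε : 0 < ε) (hε1 : ε ≤ 1) (a K ν ν' η D : ℝ)
    (ha : a = Real.sqrt Kc) (hK : K = a + 1) (hν : ν = ε / (100 * (1 + Kc)))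
    (hν' : ν' = ν * Real.exp (-(Kc / 2) - 1)) (hη : η = ν / (8 * a + 16 * K + 32))
    (hD : 0 < D) (hD2 : 1 / (2 * D ^ 2) ≤ ν' / 2) (J : ℕ) (hJ : K + D ≤ J * η)
    (n : ℕ) (hn : 0 < n) (β : ℝ) (hβ : β = Real.sqrt (Real.sqrt n)) (hβ1 : 1 ≤ β)
    (q1 : 4 * J / (η * ν') ≤ β) (q2 : 2 * J * η < β) (q3 : 2 * a + 8 * J * η ≤ β)
    (q4 : (2 * a + 8 * J * η) ^ 2 / ν ≤ β)
    (q5 : Real.log ((2 * J + 1) * (2 * J + 1)) / ν ≤ β) (q6 : (2 * a + 1) / ν ≤ β)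
    (hbin : ∀ l : ℕ, l ≤ n → |(l : ℝ) - n / 2| ≤ K * Real.sqrt n →
      Real.exp (-(2 * ((l : ℝ) - n / 2) ^ 2 / n) - ν) * n.choose (n / 2) ≤ n.choose l ∧
      (n.choose l : ℝ) ≤ Real.exp (-(2 * ((l : ℝ) - n / 2) ^ 2 / n) + ν) * n.choose (n / 2))
    (htail : ∀ l : ℕ, l ≤ n → K * Real.sqrt n ≤ |(l : ℝ) - n / 2| →
      (n.choose l : ℝ) ≤ Real.exp (-(2 * K ^ 2) + ν) * n.choose (n / 2))
    (k : ℕ) (hk1 : 1 ≤ k) (hkn : k ≤ n) (hk : (k : ℝ) ^ 2 ≤ Kc * n)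
    (F : Finset (Finset (Fin n))) (hF : IsAntichain (· ⊆ ·) (F : Set (Finset (Fin n))))
    (hd : ∀ A ∈ F, ∀ A' ∈ F, (symmDiff A A').card ≤ n - k) :
    (F.card : ℝ) ≤ (1 + ε) * n.choose ((n + k + 1) / 2) := by
  have hn' : (0 : ℝ) < n := by exact_mod_cast hn
  set r := Real.sqrt n with hr
  have hr0 : 0 < r := Real.sqrt_pos.2 hn'
  have hr2 : r ^ 2 = n := Real.sq_sqrt hn'.le
  have hβ0 : 0 < β := by linarith
  have hβ2 : β ^ 2 = r := by rw [hβ]; exact Real.sq_sqrt hr0.le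
  have hβr' : β ≤ r := by rw [← hβ2]; exact le_self_pow₀ hβ1 (by norm_num)
  have ha0 : 0 ≤ a := by rw [ha]; exact Real.sqrt_nonneg _
  have ha2 : a ^ 2 = Kc := by rw [ha]; exact Real.sq_sqrt hKc
  have hK0 : 0 < K := by linarith
  have hν0 : 0 < ν := by rw [hν]; positivity
  have hν1 : (1 + Kc) * ν = ε / 100 := by rw [hν]; field_simp
  have hν2 : ν ≤ ε / 100 := by
    have h1 : (1 + Kc) * ν = ν + Kc * ν := by ring
    have h2 : 0 ≤ Kc * ν := mul_nonneg hKc hν0.le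
    linarith
  have hν3 : ν ≤ 1 := by linarith
  have hν'0 : 0 < ν' := by rw [hν']; positivity
  have hν'1 : ν' ≤ ν := by
    rw [hν']
    refine mul_le_of_le_one_right hν0.le (Real.exp_le_one_iff.2 (by linarith))
  have hden : 0 < 8 * a + 16 * K + 32 := by positivity
  have hη0 : 0 < η := by rw [hη]; positivity
  have hη1 : η ≤ 1 := by
    rw [hη, div_le_one hden]; linarith
  have hη2 : 8 * a * η + 16 * K * η + 32 * η ^ 2 ≤ ν := by
    have h1 : (8 * a + 16 * K + 32) * η = ν := by rw [hη]; field_simp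
    have h2 : η ^ 2 ≤ η := by
      rw [sq]; exact mul_le_of_le_one_left hη0.le hη1
    have h3 : (8 * a + 16 * K + 32) * η = 8 * a * η + 16 * K * η + 32 * η := by ring
    linarith
  obtain ⟨κ, hκ⟩ : ∃ x : ℝ, x = (k : ℝ) / r := ⟨_, rfl⟩
  have hκ0 : 0 ≤ κ := by rw [hκ]; positivity
  have hkκ : (k : ℝ) = κ * r := by rw [hκ]; field_simp
  have hκ2 : κ ^ 2 ≤ Kc := by
    rw [hκ, div_pow, hr2, div_le_iff₀ hn']; exact hk
  have hκa : κ ≤ a := by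
    rw [ha]; exact Real.le_sqrt_of_sq_le hκ2
  obtain ⟨P, hP⟩ : ∃ x : ℝ, x = 1 / (2 * (J * η - K) ^ 2) + 2 * J / (η * r) := ⟨_, rfl⟩
  have hJK : K < J * η := by linarith
  have hP1 : P ≤ ν' := by
    have h1 : 1 / (2 * (J * η - K) ^ 2) ≤ 1 / (2 * D ^ 2) := by
      refine one_div_le_one_div_of_le (by positivity) ?_
      have : D ^ 2 ≤ (J * η - K) ^ 2 := pow_le_pow_left₀ hD.le (by linarith) 2
      linarith
    have h2 : 2 * J / (η * r) ≤ ν' / 2 := by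
      rw [div_le_iff₀ (by positivity)]
      have h3 : 4 * (J : ℝ) ≤ β * (η * ν') := by
        rwa [div_le_iff₀ (by positivity)] at q1
      have h4 : β ≤ r := hβr'
      have h5 : β * (η * ν') ≤ r * (η * ν') := mul_le_mul_of_nonneg_right h4 (by positivity)
      linarith
    rw [hP]; linarith
  have hP0 : 0 ≤ P := by rw [hP]; positivity
  obtain ⟨L, hL⟩ : ∃ x : ℝ, x = 2 * κ / r := ⟨_, rfl⟩
  have hL0 : 0 ≤ L := by rw [hL]; positivity
  have hLk : L * k = 2 * κ ^ 2 := by rw [hL, hkκ]; field_simp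
  obtain ⟨T, hT⟩ : ∃ x : ℝ, x = L + 4 * (2 * (J * (η / r))) := ⟨_, rfl⟩
  have hTr : T = (2 * κ + 8 * J * η) / r := by rw [hT, hL]; field_simp; ring
  obtain ⟨S, hS⟩ : ∃ x : ℝ, x = (2 * κ + 8 * J * η) ^ 2 / β := ⟨_, rfl⟩
  have hβr : β / r = 1 / β := by rw [← hβ2]; field_simp
  have hS1 : S ≤ ν := by
    rw [hS, div_le_iff₀ hβ0]
    rw [div_le_iff₀ hν0] at q4
    have h1 : (2 * κ + 8 * J * η) ^ 2 ≤ (2 * a + 8 * J * η) ^ 2 :=
      pow_le_pow_left₀ (by positivity) (by linarith) 2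
    linarith
  have hS0 : 0 ≤ S := by rw [hS]; positivity
  have hsmall : β * T ≤ 1 := by
    have h1 : β * T = (2 * κ + 8 * J * η) * (β / r) := by rw [hTr]; ring
    rw [h1, hβr, mul_one_div, div_le_one hβ0]
    linarith
  obtain ⟨L', hL'⟩ : ∃ x : ℝ, x = L + β * T ^ 2 := ⟨_, rfl⟩
  obtain ⟨kap, hkap⟩ : ∃ x : ℝ, x = L' ^ 2 / 8 := ⟨_, rfl⟩
  have hrL' : r * L' = 2 * κ + S := by
    rw [hL', hTr, hL, hS]
    have h1 : r * (2 * κ / r + β * ((2 * κ + 8 * J * η) / r) ^ 2) =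
        2 * κ + (2 * κ + 8 * J * η) ^ 2 * (β / r) := by field_simp
    rw [h1, hβr]; ring
  have hnkap : (n : ℝ) * kap = (2 * κ + S) ^ 2 / 8 := by
    rw [← hrL', hkap, ← hr2]; ring
  have hnkap2 : (n : ℝ) * kap ≤ κ ^ 2 / 2 + a * ν / 2 + ν / 8 := by
    rw [hnkap]
    have h1 : κ * S ≤ a * ν := mul_le_mul hκa hS1 hS0 ha0
    have h2 : S * S ≤ ν * 1 := mul_le_mul hS1 (hS1.trans hν3) hS0 hν0.le
    have h3 : (2 * κ + S) ^ 2 / 8 = κ ^ 2 / 2 + κ * S / 2 + S * S / 8 := by ring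
    rw [h3]
    linarith
  have herr : ν + 2 * L * (2 * η * r) + 8 * (K * r * (2 * η * r) + (2 * η * r) ^ 2) / n ≤
      2 * ν := by
    have h1 : 2 * L * (2 * η * r) = 8 * κ * η := by rw [hL]; field_simp; ring
    have h2 : 8 * (K * r * (2 * η * r) + (2 * η * r) ^ 2) / n = 16 * K * η + 32 * η ^ 2 := by
      rw [← hr2]; field_simp; ring
    rw [h1, h2]
    have h3 : κ * η ≤ a * η := mul_le_mul_of_nonneg_right hκa hη0.le
    linarith
  have hcore := core J n hn η K hη0 hK0 hJK (by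
      rw [← hr]
      have h1 : (J : ℝ) * (η / r) = J * η / r := by ring
      rw [h1, div_lt_iff₀ hr0]
      have h4 : β ≤ r := hβr'
      linarith) k hkn F hF hd β L L' kap (K * r) (2 * η * r) ν (2 * ν) P hβ0 hL0 hν0.le
    (by rw [hr]) (by rw [hr]) (fun l hl h => (hbin l hl h).2) htail
    (by
      rw [hLk]
      have h1 : κ ^ 2 ≤ K ^ 2 := pow_le_pow_left₀ hκ0 (by linarith) 2
      linarith) herr (by rw [hT] at hsmall; exact hsmall) (by rw [← hr, ← hT]; exact hL') hkap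
    (by rw [← hr]; exact hP)
  have hM := mid_pos (n := n)
  set M : ℝ := (n.choose (n / 2) : ℝ) with hMdef
  have hlog : 1 / β * Real.log ((2 * J + 1) * (2 * J + 1)) ≤ ν := by
    rw [div_le_iff₀ hν0] at q5
    rw [one_div, inv_mul_le_iff₀ hβ0]
    exact q5
  -- upper bound for |F| / M
  have hup : (F.card : ℝ) / M ≤ P + Real.exp (-(κ ^ 2 / 2) + 4 * ((1 + Kc) * ν)) := by
    have h1 : (F.card : ℝ) / M - P ≤
        Real.exp (-(L * k / 2) + L * k * P + 1 / β * Real.log ((2 * J + 1) * (2 * J + 1))) *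
          Real.exp (n * kap + 2 * ν) := by
      have h2 := mul_le_mul_of_nonneg_right hcore (Real.exp_pos (n * kap + 2 * ν)).le
      rw [mul_assoc, ← Real.exp_add, neg_add_cancel, Real.exp_zero, mul_one] at h2
      exact h2
    rw [← Real.exp_add] at h1
    have h3 : -(L * k / 2) + L * k * P + 1 / β * Real.log ((2 * J + 1) * (2 * J + 1)) +
        (n * kap + 2 * ν) ≤ -(κ ^ 2 / 2) + 4 * ((1 + Kc) * ν) := by
      rw [hLk]
      have h4 : κ ^ 2 * P ≤ Kc * ν := mul_le_mul hκ2 (hP1.trans hν'1) hP0 hKc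
      have h5 : a ≤ (1 + Kc) / 2 := by
        have h8 := sq_nonneg (a - 1)
        have h9 : (a - 1) ^ 2 = a ^ 2 - 2 * a + 1 := by ring
        rw [h9, ha2] at h8
        linarith
      have h6 : a * ν ≤ (1 + Kc) / 2 * ν := mul_le_mul_of_nonneg_right h5 hν0.le
      have h7 : 0 ≤ Kc * ν := mul_nonneg hKc hν0.le
      linarith
    have h4 := Real.exp_le_exp.2 h3
    linarith
  -- lower bound for the binomial coefficient
  have hl0 : (n + k + 1) / 2 ≤ n := by omega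
  have hl1 : ((n + k : ℕ) : ℝ) / 2 ≤ (((n + k + 1) / 2 : ℕ) : ℝ) := by
    have : n + k ≤ 2 * ((n + k + 1) / 2) := by omega
    have h2 : ((n + k : ℕ) : ℝ) ≤ 2 * (((n + k + 1) / 2 : ℕ) : ℝ) := by exact_mod_cast this
    linarith
  have hl2 : (((n + k + 1) / 2 : ℕ) : ℝ) ≤ ((n + k + 1 : ℕ) : ℝ) / 2 := by
    have : 2 * ((n + k + 1) / 2) ≤ n + k + 1 := by omega
    have h2 : 2 * (((n + k + 1) / 2 : ℕ) : ℝ) ≤ ((n + k + 1 : ℕ) : ℝ) := by exact_mod_cast this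
    linarith
  push_cast at hl1 hl2
  set l0 := (n + k + 1) / 2 with hl0def
  have hy0 : 0 ≤ (l0 : ℝ) - n / 2 := by
    have : (0 : ℝ) ≤ k := Nat.cast_nonneg k
    linarith
  have hy1 : (l0 : ℝ) - n / 2 ≤ (k + 1) / 2 := by linarith
  have hr1 : 1 ≤ r := hβ1.trans hβr'
  have hkr : (k : ℝ) ≤ a * r := by rw [hkκ]; exact mul_le_mul_of_nonneg_right hκa hr0.le
  have hlow := (hbin l0 hl0 (by
    rw [abs_of_nonneg hy0, hK]
    have h1 := mul_nonneg ha0 hr0.le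
    linarith)).1
  have hexp : 2 * ((l0 : ℝ) - n / 2) ^ 2 / n ≤ κ ^ 2 / 2 + ν := by
    have h1 : ((l0 : ℝ) - n / 2) ^ 2 ≤ ((k + 1) / 2) ^ 2 := pow_le_pow_left₀ hy0 hy1 2
    have h2 : 2 * ((l0 : ℝ) - n / 2) ^ 2 / n ≤ 2 * (((k : ℝ) + 1) / 2) ^ 2 / n :=
      div_le_div_of_nonneg_right (by linarith) hn'.le
    refine h2.trans ?_
    have h3 : 2 * (((k : ℝ) + 1) / 2) ^ 2 / n = κ ^ 2 / 2 + (2 * k + 1) / (2 * n) := by
      rw [hkκ, ← hr2]; field_simp; ring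
    rw [h3]
    have h4 : (2 * (k : ℝ) + 1) / (2 * n) ≤ ν := by
      rw [div_le_iff₀ (by positivity), ← hr2]
      rw [div_le_iff₀ hν0] at q6
      have h6 : 2 * a + 1 ≤ r * ν := q6.trans (mul_le_mul_of_nonneg_right hβr' hν0.le)
      have h7 : (2 * a + 1) * r ≤ r * ν * r := mul_le_mul_of_nonneg_right h6 hr0.le
      have h8 : 0 ≤ ν * r ^ 2 := by positivity
      have h9 : r * ν * r = ν * r ^ 2 := by ring
      have h10 : ν * (2 * r ^ 2) = 2 * (ν * r ^ 2) := by ring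
      have h11 : (2 * a + 1) * r = 2 * (a * r) + r := by ring
      rw [h10]
      linarith
    linarith
  have hlow2 : Real.exp (-(κ ^ 2 / 2) - 2 * ν) * M ≤ n.choose l0 := by
    refine le_trans (mul_le_mul_of_nonneg_right (Real.exp_le_exp.2 ?_) hM.le) hlow
    linarith
  -- conclusion
  have h1 : (F.card : ℝ) ≤ (P + Real.exp (-(κ ^ 2 / 2) + 4 * ((1 + Kc) * ν))) * M := by
    rwa [div_le_iff₀ hM] at hup
  have h2 : P + Real.exp (-(κ ^ 2 / 2) + 4 * ((1 + Kc) * ν)) ≤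
      (1 + ε) * Real.exp (-(κ ^ 2 / 2) - 2 * ν) := by
    obtain ⟨E, hE⟩ : ∃ x : ℝ, x = Real.exp (-(κ ^ 2 / 2) - 2 * ν) := ⟨_, rfl⟩
    rw [← hE]
    have e1 : Real.exp (-(κ ^ 2 / 2) + 4 * ((1 + Kc) * ν)) =
        E * Real.exp (2 * ν + 4 * ((1 + Kc) * ν)) := by
      rw [hE, ← Real.exp_add]; congr 1; ring
    have e2 : Real.exp (2 * ν + 4 * ((1 + Kc) * ν)) ≤ 1 + 2 * (2 * ν + 4 * ((1 + Kc) * ν)) :=
      exp_le_two _ (by positivity) (by linarith)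
    have e2' : Real.exp (2 * ν + 4 * ((1 + Kc) * ν)) ≤ 1 + ε / 2 := by linarith
    have e3 : P ≤ ν * E := by
      refine hP1.trans ?_
      rw [hν', hE]
      refine mul_le_mul_of_nonneg_left (Real.exp_le_exp.2 ?_) hν0.le
      linarith
    have hE0 : 0 < E := by rw [hE]; exact Real.exp_pos _
    rw [e1]
    have e4 := mul_le_mul_of_nonneg_left e2' hE0.le
    have e5 : ν * E ≤ ε / 100 * E := mul_le_mul_of_nonneg_right hν2 hE0.le
    have e6 : 0 ≤ ε * E := by positivity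
    have e7 : E * (1 + ε / 2) = E + ε * E / 2 := by ring
    have e8 : (1 + ε) * E = E + ε * E := by ring
    have e9 : ε / 100 * E = ε * E / 100 := by ring
    linarith
  calc (F.card : ℝ) ≤ (P + Real.exp (-(κ ^ 2 / 2) + 4 * ((1 + Kc) * ν))) * M := h1
    _ ≤ (1 + ε) * Real.exp (-(κ ^ 2 / 2) - 2 * ν) * M := mul_le_mul_of_nonneg_right h2 hM.le
    _ = (1 + ε) * (Real.exp (-(κ ^ 2 / 2) - 2 * ν) * M) := by ring
    _ ≤ (1 + ε) * n.choose l0 := mul_le_mul_of_nonneg_left hlow2 (by linarith)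

theorem window (Kc ε : ℝ) (hKc : 0 ≤ Kc) (hε : 0 < ε) : ∃ n₀ : ℕ, ∀ n : ℕ, n₀ ≤ n →
    ∀ k : ℕ, 1 ≤ k → k ≤ n → (k : ℝ) ^ 2 ≤ Kc * n → ∀ F : Finset (Finset (Fin n)),
      IsAntichain (· ⊆ ·) (F : Set (Finset (Fin n))) →
      (∀ A ∈ F, ∀ A' ∈ F, (symmDiff A A').card ≤ n - k) →
      (F.card : ℝ) ≤ (1 + ε) * n.choose ((n + k + 1) / 2) := by
  wlog hε1 : ε ≤ 1 generalizing ε
  · obtain ⟨n₀, h⟩ := this 1 one_pos le_rfl
    refine ⟨n₀, fun n hn k hk1 hkn hk F hF hd => (h n hn k hk1 hkn hk F hF hd).trans ?_⟩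
    exact mul_le_mul_of_nonneg_right (by linarith) (Nat.cast_nonneg _)
  obtain ⟨a, ha⟩ : ∃ x : ℝ, x = Real.sqrt Kc := ⟨_, rfl⟩
  have ha0 : 0 ≤ a := by rw [ha]; exact Real.sqrt_nonneg _
  obtain ⟨K, hK⟩ : ∃ x : ℝ, x = a + 1 := ⟨_, rfl⟩
  obtain ⟨ν, hν⟩ : ∃ x : ℝ, x = ε / (100 * (1 + Kc)) := ⟨_, rfl⟩
  have hν0 : 0 < ν := by rw [hν]; positivity
  obtain ⟨ν', hν'⟩ : ∃ x : ℝ, x = ν * Real.exp (-(Kc / 2) - 1) := ⟨_, rfl⟩
  have hν'0 : 0 < ν' := by rw [hν']; positivity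
  obtain ⟨η, hη⟩ : ∃ x : ℝ, x = ν / (8 * a + 16 * K + 32) := ⟨_, rfl⟩
  have hK0 : 0 < K := by rw [hK]; positivity
  have hη0 : 0 < η := by rw [hη]; positivity
  obtain ⟨D, hD⟩ : ∃ x : ℝ, x = 1 / Real.sqrt ν' := ⟨_, rfl⟩
  have hD0 : 0 < D := by rw [hD]; positivity
  have hD2 : 1 / (2 * D ^ 2) ≤ ν' / 2 := by
    have h1 : Real.sqrt ν' ^ 2 = ν' := Real.sq_sqrt hν'0.le
    have h2 : D ^ 2 = 1 / ν' := by rw [hD, div_pow, h1, one_pow]
    rw [h2]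
    apply le_of_eq
    field_simp
  obtain ⟨J, hJ⟩ := exists_nat_ge ((K + D) / η)
  have hJ' : K + D ≤ J * η := by rwa [div_le_iff₀ hη0] at hJ
  obtain ⟨n₁, hn₁⟩ := binom_gauss K ν hK0 hν0
  obtain ⟨n₂, hn₂⟩ := binom_tail K ν hK0 hν0
  obtain ⟨Q, hQ⟩ : ∃ x : ℝ, x = 1 + 4 * J / (η * ν') + (2 * J * η + 1) + (2 * a + 8 * J * η) +
    (2 * a + 8 * J * η) ^ 2 / ν + Real.log ((2 * J + 1) * (2 * J + 1)) / ν +
    (2 * a + 1) / ν := ⟨_, rfl⟩
  have hlog0 : 0 ≤ Real.log (((2 * J + 1) * (2 * J + 1) : ℝ)) := by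
    refine Real.log_nonneg ?_
    have h1 : (0 : ℝ) ≤ J := Nat.cast_nonneg J
    have h2 : (0 : ℝ) ≤ (J : ℝ) * J := mul_nonneg h1 h1
    have h3 : ((2 * J + 1) * (2 * J + 1) : ℝ) = 4 * (J * J) + 4 * J + 1 := by ring
    rw [h3]
    linarith
  have t1 : 0 ≤ 4 * J / (η * ν') := by positivity
  have t2 : 0 ≤ 2 * J * η := by positivity
  have t3 : 0 ≤ 2 * a + 8 * J * η := by positivity
  have t4 : 0 ≤ (2 * a + 8 * J * η) ^ 2 / ν := by positivity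
  have t5 : 0 ≤ Real.log ((2 * J + 1) * (2 * J + 1)) / ν := div_nonneg hlog0 hν0.le
  have t6 : 0 ≤ (2 * a + 1) / ν := by positivity
  have hQ0 : 0 ≤ Q := by rw [hQ]; positivity
  obtain ⟨n₃, hn₃⟩ := exists_nat_ge (Q ^ 4)
  refine ⟨max (max n₁ n₂) (max n₃ 1), ?_⟩
  intro n hn k hk1 hkn hk F hF hd
  have e1 : n₁ ≤ n := le_trans (le_trans (le_max_left _ _) (le_max_left _ _)) hn
  have e2 : n₂ ≤ n := le_trans (le_trans (le_max_right _ _) (le_max_left _ _)) hn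
  have e3 : n₃ ≤ n := le_trans (le_trans (le_max_left _ _) (le_max_right _ _)) hn
  have e4 : 1 ≤ n := le_trans (le_trans (le_max_right _ _) (le_max_right _ _)) hn
  have hQβ : Q ≤ Real.sqrt (Real.sqrt n) := by
    refine Real.le_sqrt_of_sq_le (Real.le_sqrt_of_sq_le ?_)
    have h1 : (n₃ : ℝ) ≤ n := by exact_mod_cast e3
    have h2 : (Q ^ 2) ^ 2 = Q ^ 4 := by ring
    rw [h2]; linarith
  exact window_aux Kc ε hKc hε hε1 a K ν ν' η D ha hK hν hν' hη hD0 hD2 J hJ' n e4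
    (Real.sqrt (Real.sqrt n)) rfl (by linarith) (by linarith) (by linarith) (by linarith)
    (by linarith) (by linarith) (by linarith) (hn₁ n e1) (hn₂ n e2) k hk1 hkn hk F hF hd

end Pool.Agent.F155AS
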