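import Pool.Agent.F155AS.Defs

/-! The product induction (a Prekopa type inequality with an entropy term). -/

set_option autoImplicit false

namespace Pool.Agent.F155AS

open Finset

section

variable {X : Type} [Fintype X]

theorem ex_succ (p : X → ℝ) (n : ℕ) (f : (Fin (n + 1) → X) → ℝ) :
    Ex p (n + 1) f = ∑ a, p a * Ex p n (fun c => f (Fin.cons a c)) := by
  unfold Ex wt
  rw [← (Fin.consEquiv (fun _ : Fin (n + 1) => X)).sum_comp, Fintype.sum_prod_type]
  refine sum_congr rfl fun a _ => ?_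
  rw [mul_sum]
  refine sum_congr rfl fun c _ => ?_
  rw [Fin.prod_univ_succ]
  simp [Fin.consEquiv, mul_assoc]

theorem ex_zero (p : X → ℝ) (f : (Fin 0 → X) → ℝ) : Ex p 0 f = f (fun i => i.elim0) := by
  unfold Ex wt
  rw [Fintype.sum_unique]
  simp only [univ_eq_empty, prod_empty, one_mul]
  congr 1

/-- the one-site property of the family `ζ` of increments -/
def Site {I : Type} (p : X → ℝ) (β : ℝ) (ζ : I → X → X → ℝ) : Prop :=
  ∀ r : X → ℝ, (∀ x, 0 ≤ r x) → ∑ x, r x = 1 → ∃ π : X → X → ℝ, (∀ a b, 0 ≤ π a b) ∧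
    (∀ a, ∑ b, π a b = r a) ∧ (∀ b, ∑ a, π a b = p b) ∧
    ∀ j, ∑ a, ∑ b, π a b * Real.exp (β * ζ j a b) ≤
      Real.exp (β * ∑ a, r a * Real.log (r a / p a))

theorem one_step {I : Type} [Fintype I] [Nonempty I] (p : X → ℝ) (hp : ∀ x, 0 < p x)
    (β : ℝ) (hβ : 0 < β) (ζ : I → X → X → ℝ) (site : Site p β ζ)
    (g : X → ℝ) (hg : ∀ a, 0 ≤ g a) (R : X → ℝ) (ω : I → ℝ) (hω : ∀ j, 0 < ω j)
    (h : ∀ a b, g a ≤ Real.exp (R b + 1 / β * Real.log (∑ j, ω j * Real.exp (β * ζ j a b)))) :
    ∑ a, p a * g a ≤ Real.exp (∑ b, p b * R b + 1 / β * Real.log (∑ j, ω j)) := by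
  set Z : ℝ := ∑ a, p a * g a with hZ
  rcases le_or_gt Z 0 with h0 | h0
  · exact h0.trans (Real.exp_pos _).le
  obtain ⟨π, hπ0, hπ1, hπ2, hπ3⟩ := site (fun a => p a * g a / Z)
    (fun a => div_nonneg (mul_nonneg (hp a).le (hg a)) h0.le)
    (by rw [← sum_div, ← hZ, div_self h0.ne'])
  set D : ℝ := ∑ a, p a * g a / Z * Real.log (p a * g a / Z / p a) with hD
  set S : X → X → ℝ := fun a b => ∑ j, ω j * Real.exp (β * ζ j a b) with hS
  have hSpos : ∀ a b, 0 < S a b := fun a b =>
    sum_pos (fun j _ => mul_pos (hω j) (Real.exp_pos _)) univ_nonempty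
  have hΩ : 0 < ∑ j, ω j := sum_pos (fun j _ => hω j) univ_nonempty
  have hrsum : ∑ a, p a * g a / Z = 1 := by rw [← sum_div, ← hZ, div_self h0.ne']
  -- log Z + D = E_rho log g
  have e1 : D + Real.log Z = ∑ a, p a * g a / Z * Real.log (g a) := by
    have : Real.log Z = ∑ a, p a * g a / Z * Real.log Z := by
      rw [← sum_mul, hrsum, one_mul]
    rw [this, hD, ← sum_add_distrib]
    refine sum_congr rfl fun a _ => ?_
    rcases (hg a).eq_or_lt with hga | hga
    · simp [← hga]
    · have : p a * g a / Z / p a = g a / Z := by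
        field_simp [(hp a).ne']
      rw [this, Real.log_div hga.ne' h0.ne']
      ring
  have e2 : ∑ a, p a * g a / Z * Real.log (g a) = ∑ a, ∑ b, π a b * Real.log (g a) := by
    refine sum_congr rfl fun a _ => ?_
    rw [← sum_mul, hπ1 a]
  have e3 : ∑ a, ∑ b, π a b * Real.log (g a) ≤
      ∑ a, ∑ b, π a b * (R b + 1 / β * Real.log (S a b)) := by
    refine sum_le_sum fun a _ => sum_le_sum fun b _ => ?_
    rcases (hπ0 a b).eq_or_lt with h1 | h1
    · simp [← h1]
    · have hpos : 0 < g a := by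
        rcases (hg a).eq_or_lt with hga | hga
        · exfalso
          have h2 : ∑ b, π a b = 0 := by rw [hπ1 a, ← hga]; simp
          have h3 := (sum_eq_zero_iff_of_nonneg (fun b _ => hπ0 a b)).1 h2 b (mem_univ b)
          exact h1.ne' h3
        · exact hga
      refine mul_le_mul_of_nonneg_left ?_ h1.le
      rw [Real.log_le_iff_le_exp hpos]
      exact h a b
  have e4 : ∑ a, ∑ b, π a b * (R b + 1 / β * Real.log (S a b)) =
      ∑ b, p b * R b + 1 / β * ∑ a, ∑ b, π a b * Real.log (S a b) := by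
    have h1 : ∑ a, ∑ b, π a b * (R b + 1 / β * Real.log (S a b)) =
        ∑ a, ∑ b, π a b * R b + ∑ a, ∑ b, 1 / β * (π a b * Real.log (S a b)) := by
      rw [← sum_add_distrib]
      refine sum_congr rfl fun a _ => ?_
      rw [← sum_add_distrib]
      refine sum_congr rfl fun b _ => ?_
      ring
    rw [h1]
    congr 1
    · rw [sum_comm]
      refine sum_congr rfl fun b _ => ?_
      rw [← sum_mul, hπ2 b]
    · rw [mul_sum]
      refine sum_congr rfl fun a _ => ?_
      rw [mul_sum]
  -- Jensen with the comparison point y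
  set y : ℝ := (∑ j, ω j) * Real.exp (β * D) with hy
  have hypos : 0 < y := mul_pos hΩ (Real.exp_pos _)
  have hπS : ∑ a, ∑ b, π a b * S a b ≤ y := by
    have h1 : ∑ a, ∑ b, π a b * S a b = ∑ j, ω j * ∑ a, ∑ b, π a b * Real.exp (β * ζ j a b) := by
      simp only [hS, mul_sum]
      rw [sum_comm (s := (univ : Finset I))]
      refine sum_congr rfl fun a _ => ?_
      rw [sum_comm (s := (univ : Finset I))]
      refine sum_congr rfl fun b _ => sum_congr rfl fun j _ => ?_
      ring
    rw [h1, hy, sum_mul]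
    exact sum_le_sum fun j _ => mul_le_mul_of_nonneg_left (hπ3 j) (hω j).le
  have htot : ∑ a, ∑ b, π a b = 1 := by
    rw [← hrsum]; exact sum_congr rfl fun a _ => hπ1 a
  have e5 : ∑ a, ∑ b, π a b * Real.log (S a b) ≤ Real.log y := by
    have h1 : ∑ a, ∑ b, π a b * Real.log (S a b) ≤
        ∑ a, ∑ b, π a b * (Real.log y + (S a b / y - 1)) := by
      refine sum_le_sum fun a _ => sum_le_sum fun b _ => mul_le_mul_of_nonneg_left ?_ (hπ0 a b)
      have h2 := Real.log_le_sub_one_of_pos (div_pos (hSpos a b) hypos)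
      rw [Real.log_div (hSpos a b).ne' hypos.ne'] at h2
      linarith
    have h3 : ∑ a, ∑ b, π a b * (Real.log y + (S a b / y - 1)) =
        Real.log y + ((∑ a, ∑ b, π a b * S a b) / y - 1) := by
      have h4 : ∀ a, ∑ b, π a b * (Real.log y + (S a b / y - 1)) =
          (Real.log y - 1) * ∑ b, π a b + (∑ b, π a b * S a b) / y := by
        intro a
        rw [mul_sum, sum_div, ← sum_add_distrib]
        refine sum_congr rfl fun b _ => ?_
        ring
      rw [sum_congr rfl fun a _ => h4 a, sum_add_distrib, ← mul_sum, htot, ← sum_div]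
      ring
    rw [h3] at h1
    have h5 : (∑ a, ∑ b, π a b * S a b) / y ≤ 1 := by
      rw [div_le_one hypos]; exact hπS
    linarith
  have e6 : Real.log y = Real.log (∑ j, ω j) + β * D := by
    rw [hy, Real.log_mul hΩ.ne' (Real.exp_pos _).ne', Real.log_exp]
  have e7 : Real.log Z ≤ ∑ b, p b * R b + 1 / β * Real.log (∑ j, ω j) := by
    have h1 : D + Real.log Z ≤ ∑ b, p b * R b + 1 / β * Real.log y := by
      rw [e1, e2]
      refine e3.trans ?_
      rw [e4]
      have := mul_le_mul_of_nonneg_left e5 (by positivity : (0 : ℝ) ≤ 1 / β)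
      linarith
    rw [e6] at h1
    have h2 : 1 / β * (Real.log (∑ j, ω j) + β * D) = 1 / β * Real.log (∑ j, ω j) + D := by
      field_simp
    rw [h2] at h1
    linarith
  calc Z = Real.exp (Real.log Z) := (Real.exp_log h0).symm
    _ ≤ _ := Real.exp_le_exp.2 e7

theorem pt {I : Type} [Fintype I] [Nonempty I] (p : X → ℝ) (hp : ∀ x, 0 < p x)
    (β : ℝ) (hβ : 0 < β) (ζ : I → X → X → ℝ) (site : Site p β ζ) (n : ℕ) :
    ∀ (G R : (Fin n → X) → ℝ), (∀ c, 0 ≤ G c) → ∀ ω : I → ℝ, (∀ j, 0 < ω j) →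
    (∀ c' c, G c' ≤ Real.exp (R c +
      1 / β * Real.log (∑ j, ω j * Real.exp (β * ∑ i, ζ j (c' i) (c i))))) →
    Ex p n G ≤ Real.exp (Ex p n R + 1 / β * Real.log (∑ j, ω j)) := by
  induction n with
  | zero =>
    intro G R hG ω hω h
    rw [ex_zero, ex_zero]
    have := h (fun i => i.elim0) (fun i => i.elim0)
    simpa using this
  | succ n ih =>
    intro G R hG ω hω h
    rw [ex_succ, ex_succ]
    refine one_step p hp β hβ ζ site (fun a => Ex p n (fun c => G (Fin.cons a c))) ?_
      (fun b => Ex p n (fun c => R (Fin.cons b c))) ω hω ?_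
    · intro a
      exact sum_nonneg fun c _ => mul_nonneg (prod_nonneg fun i _ => (hp _).le) (hG _)
    · intro a b
      refine ih _ _ (fun c => hG _) (fun j => ω j * Real.exp (β * ζ j a b))
        (fun j => mul_pos (hω j) (Real.exp_pos _)) ?_
      intro c' c
      refine (h (Fin.cons a c') (Fin.cons b c)).trans (le_of_eq ?_)
      congr 3
      congr 1
      refine sum_congr rfl fun j _ => ?_
      rw [Fin.sum_univ_succ, mul_assoc, ← Real.exp_add]
      simp [mul_add]

end

end Pool.Agent.F155AS
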