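import Pool.Agent.F155AS.Site

/-! The two-point Pinsker inequality and the one-site lemma. -/

set_option autoImplicit false

namespace Pool.Agent.F155AS

open Finset

section

open MeasureTheory ProbabilityTheory

/-- Hoeffding's lemma for a finite distribution (copied from `TFP/HoeffdingRound`) -/
theorem hoeffding_finite {ι : Type} [Fintype ι] (w u : ι → ℝ) (hw0 : ∀ i, 0 ≤ w i)
    (hw1 : ∑ i, w i = 1) (hu : ∀ i, 0 ≤ u i ∧ u i ≤ 1) (l : ℝ) :
    ∑ i, w i * Real.exp (l * (∑ j, w j * u j - u i)) ≤ Real.exp (l ^ 2 / 8) := by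
  classical
  let _ : MeasurableSpace ι := ⊤
  let P : PMF ι := PMF.ofFintype (fun i => ENNReal.ofReal (w i)) (by
    rw [← ENNReal.ofReal_sum_of_nonneg (fun i _ => hw0 i), hw1, ENNReal.ofReal_one])
  have hP : ∀ i, (P i).toReal = w i := fun i => by
    show (ENNReal.ofReal (w i)).toReal = w i
    exact ENNReal.toReal_ofReal (hw0 i)
  have hint : ∀ f : ι → ℝ, ∫ a, f a ∂P.toMeasure = ∑ i, w i * f i := by
    intro f
    rw [PMF.integral_eq_sum]
    apply Finset.sum_congr rfl
    intro i _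
    rw [hP, smul_eq_mul]
  have hsub := hasSubgaussianMGF_of_mem_Icc (μ := P.toMeasure) (X := u) (a := 0) (b := 1)
    (measurable_of_finite u).aemeasurable (Filter.Eventually.of_forall fun i => hu i)
  have hm := hsub.mgf_le (-l)
  rw [mgf, hint] at hm
  rw [hint] at hm
  refine le_trans (le_of_eq ?_) (hm.trans (le_of_eq ?_))
  · apply Finset.sum_congr rfl
    intro i _
    congr 2
    ring
  · congr 1
    simp
    ring

end

/-- the variational lower bound for relative entropy -/
theorem entropy_ge {X : Type} [Fintype X] (r p φ : X → ℝ) (hr : ∀ x, 0 ≤ r x)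
    (hr1 : ∑ x, r x = 1) (hp : ∀ x, 0 < p x) (y : ℝ) (hy : 0 < y)
    (h : ∑ x, p x * Real.exp (φ x) ≤ y) :
    ∑ x, r x * φ x - Real.log y ≤ ∑ x, r x * Real.log (r x / p x) := by
  have h1 : ∀ x, r x * φ x - r x * Real.log (r x / p x) ≤
      r x * (Real.log y - 1) + p x * Real.exp (φ x) / y := by
    intro x
    rcases (hr x).eq_or_lt with h0 | h0
    · rw [← h0]
      simp only [zero_mul, sub_zero, zero_add]
      exact div_nonneg (mul_nonneg (hp x).le (Real.exp_pos _).le) hy.le
    · have hpx := hp x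
      have h2 : 0 < p x * Real.exp (φ x) / (r x * y) := by positivity
      have h3 := Real.log_le_sub_one_of_pos h2
      rw [Real.log_div (by positivity) (by positivity), Real.log_mul (by positivity)
        (by positivity), Real.log_mul (by positivity) (by positivity), Real.log_exp] at h3
      rw [Real.log_div h0.ne' hpx.ne']
      have h4 := mul_le_mul_of_nonneg_left h3 h0.le
      have h5 : r x * (p x * Real.exp (φ x) / (r x * y) - 1) =
          p x * Real.exp (φ x) / y - r x := by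
        field_simp
      rw [h5] at h4
      linarith
  have h2 := sum_le_sum fun x (_ : x ∈ univ) => h1 x
  rw [sum_sub_distrib, sum_add_distrib, ← sum_mul, hr1, ← sum_div, one_mul] at h2
  have h3 : (∑ x, p x * Real.exp (φ x)) / y ≤ 1 := by rwa [div_le_one hy]
  linarith

theorem pinsker {m : ℕ} (r p : Fin (m + 1) → ℝ) (hr : ∀ a, 0 ≤ r a) (hr1 : ∑ a, r a = 1)
    (hp : ∀ a, 0 < p a) (hp1 : ∑ a, p a = 1) (j : ℕ) :
    2 * (cum r j - cum p j) ^ 2 ≤ ∑ a, r a * Real.log (r a / p a) := by
  set δ := cum r j - cum p j with hδ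
  have hind : ∀ a : Fin (m + 1), 0 ≤ ind j a ∧ ind j a ≤ 1 := by
    intro a; unfold ind; split_ifs <;> norm_num
  have h1 := hoeffding_finite p (ind j) (fun a => (hp a).le) hp1 hind (-(4 * δ))
  have h2 := entropy_ge r p (fun a => -(4 * δ) * (∑ b, p b * ind j b - ind j a)) hr hr1 hp
    (Real.exp ((-(4 * δ)) ^ 2 / 8)) (Real.exp_pos _) h1
  rw [Real.log_exp] at h2
  refine le_trans (le_of_eq ?_) h2
  have h3 : ∑ x, r x * (-(4 * δ) * (∑ b, p b * ind j b - ind j x)) = 4 * δ * δ := by
    have h4 : ∀ T : ℝ, ∑ x, r x * (-(4 * δ) * (T - ind j x)) =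
        -(4 * δ) * T * ∑ x, r x + 4 * δ * ∑ x, r x * ind j x := by
      intro T
      rw [mul_sum, mul_sum, ← sum_add_distrib]
      refine sum_congr rfl fun x _ => ?_
      ring
    rw [h4, hr1]
    change -(4 * δ) * cum p j * 1 + 4 * δ * cum r j = 4 * δ * δ
    rw [hδ]; ring
  rw [h3]; ring

/-- the increments attached to a pair of cuts -/
noncomputable def inc {m : ℕ} (p : Fin (m + 1) → ℝ) (L kap : ℝ) (ij : ℕ × ℕ)
    (a b : Fin (m + 1)) : ℝ :=
  L * (ind ij.1 a + ind ij.2 b - 2 * (ind ij.1 a * ind ij.2 b)) -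
    4 * (cum p ij.1 - cum p ij.2) * (ind ij.1 a - ind ij.2 b) - kap +
    2 * (cum p ij.1 - cum p ij.2) ^ 2

theorem exp_sub_one_le (u : ℝ) (hu : u ≤ 1) : Real.exp u - 1 ≤ u + u ^ 2 := by
  rcases le_or_gt (-1) u with h | h
  · have := Real.abs_exp_sub_one_sub_id_le (x := u) (abs_le.2 ⟨h, hu⟩)
    have := abs_le.1 this
    linarith [this.2]
  · have h1 : Real.exp u ≤ 1 := Real.exp_le_one_iff.2 (by linarith)
    nlinarith

theorem one_site {m : ℕ} {I : Type} (cut : I → ℕ × ℕ) (p : Fin (m + 1) → ℝ) (hp : ∀ a, 0 < p a)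
    (hp1 : ∑ a, p a = 1) (β L g0 L' kap : ℝ) (hβ : 0 < β) (hL : 0 ≤ L) (hg0 : 0 ≤ g0)
    (hgap : ∀ k, |cum p (cut k).1 - cum p (cut k).2| ≤ g0)
    (hsmall : β * (L + 4 * g0) ≤ 1) (hL' : L' = L + β * (L + 4 * g0) ^ 2)
    (hkap : kap = L' ^ 2 / 8) :
    Site p β (fun k => inc p L kap (cut k)) := by
  intro r hr hr1
  obtain ⟨π, hπ0, hπ1, hπ2, hπ3⟩ := coupling r p hr hr1 (fun a => (hp a).le) hp1
  refine ⟨π, hπ0, hπ1, hπ2, ?_⟩
  intro k
  have hgap' := hgap k
  change ∑ a, ∑ b, π a b * Real.exp (β * inc p L kap (cut k) a b) ≤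
    Real.exp (β * ∑ a, r a * Real.log (r a / p a))
  generalize cut k = ij at hgap' ⊢
  obtain ⟨i, j⟩ := ij
  simp only at hgap'
  have hM := hπ3 i j
  set x := cum r i - cum p j with hx
  set g := cum p i - cum p j with hg
  have hpin := pinsker r p hr hr1 hp hp1 i
  have hxg : cum r i - cum p i = x - g := by rw [hx, hg]; ring
  rw [hxg] at hpin
  set K := ∑ a, r a * Real.log (r a / p a) with hK
  have hs : ∑ a, ∑ b, π a b * ind i a = cum r i := by
    unfold cum
    refine sum_congr rfl fun a _ => ?_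
    rw [← sum_mul, hπ1 a]
  have ht : ∑ a, ∑ b, π a b * ind j b = cum p j := by
    rw [sum_comm]
    unfold cum
    refine sum_congr rfl fun b _ => ?_
    rw [← sum_mul, hπ2 b]
  have htot : ∑ a, ∑ b, π a b = 1 := by
    rw [← hr1]; exact sum_congr rfl fun a _ => hπ1 a
  set C := Real.exp (β * (-kap + 2 * g ^ 2)) with hC
  set u1 := β * (L - 4 * g) with hu1
  set u2 := β * (L + 4 * g) with hu2
  have hcell : ∀ a b : Fin (m + 1), Real.exp (β * inc p L kap (i, j) a b) =
      C * (1 + (ind i a - ind i a * ind j b) * (Real.exp u1 - 1) +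
        (ind j b - ind i a * ind j b) * (Real.exp u2 - 1)) := by
    intro a b
    have e1 : ind i a = 0 ∨ ind i a = 1 := by unfold ind; split_ifs <;> simp
    have e2 : ind j b = 0 ∨ ind j b = 1 := by unfold ind; split_ifs <;> simp
    simp only [inc, ← hg]
    rcases e1 with e1 | e1 <;> rcases e2 with e2 | e2 <;> rw [e1, e2]
    · rw [hC]; simp only [mul_zero, zero_mul, add_zero, sub_self, mul_one]
      congr 1; ring
    · rw [hC, hu2]
      have : C * (1 + (0 - 0 * 1) * (Real.exp u1 - 1) + (1 - 0 * 1) * (Real.exp u2 - 1)) =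
          C * Real.exp u2 := by ring
      rw [← hC, ← hu2, this, hC, hu2, ← Real.exp_add]
      congr 1; ring
    · have : C * (1 + (1 - 1 * 0) * (Real.exp u1 - 1) + (0 - 1 * 0) * (Real.exp u2 - 1)) =
          C * Real.exp u1 := by ring
      rw [this, hC, hu1, ← Real.exp_add]
      congr 1; ring
    · rw [hC]
      have : Real.exp (β * (-kap + 2 * g ^ 2)) * (1 + (1 - 1 * 1) * (Real.exp u1 - 1) +
          (1 - 1 * 1) * (Real.exp u2 - 1)) = Real.exp (β * (-kap + 2 * g ^ 2)) := by ring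
      rw [this]
      congr 1; ring
  have hsum : ∑ a, ∑ b, π a b * Real.exp (β * inc p L kap (i, j) a b) =
      C * (1 + (cum r i - min (cum r i) (cum p j)) * (Real.exp u1 - 1) +
        (cum p j - min (cum r i) (cum p j)) * (Real.exp u2 - 1)) := by
    have hlin : ∀ X Y : ℝ, ∑ a, ∑ b, π a b * (C * (1 + (ind i a - ind i a * ind j b) * X +
        (ind j b - ind i a * ind j b) * Y)) =
        C * (∑ a, ∑ b, π a b + (∑ a, ∑ b, π a b * ind i a -
          ∑ a, ∑ b, π a b * (ind i a * ind j b)) * X +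
          (∑ a, ∑ b, π a b * ind j b - ∑ a, ∑ b, π a b * (ind i a * ind j b)) * Y) := by
      intro X Y
      simp only [mul_sum, sum_mul, ← sum_add_distrib, ← sum_sub_distrib]
      refine sum_congr rfl fun a _ => sum_congr rfl fun b _ => ?_
      ring
    have h1 := hlin (Real.exp u1 - 1) (Real.exp u2 - 1)
    rw [hM, htot, hs, ht] at h1
    rw [← h1]
    refine sum_congr rfl fun a _ => sum_congr rfl fun b _ => ?_
    rw [hcell a b]
  change ∑ a, ∑ b, π a b * Real.exp (β * inc p L kap (i, j) a b) ≤ Real.exp (β * K)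
  rw [hsum]
  have hgl := abs_le.1 hgap'
  have hfin : ∀ y u : ℝ, 0 ≤ y → |x| = y → u ≤ 1 → u ^ 2 ≤ (β * (L + 4 * g0)) ^ 2 →
      y * u = β * (L * y - 4 * g * x) →
      C * (1 + y * (Real.exp u - 1)) ≤ Real.exp (β * K) := by
    intro y u hy hxy hu husq hyu
    have h1 : 1 + y * (Real.exp u - 1) ≤ Real.exp (y * (u + u ^ 2)) := by
      have h2 := exp_sub_one_le u hu
      have h3 := mul_le_mul_of_nonneg_left h2 hy
      have h4 := Real.add_one_le_exp (y * (u + u ^ 2))
      linarith
    have h2 : C * (1 + y * (Real.exp u - 1)) ≤ Real.exp (β * (-kap + 2 * g ^ 2) +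
        y * (u + u ^ 2)) := by
      rw [Real.exp_add]
      exact mul_le_mul_of_nonneg_left h1 (Real.exp_pos _).le
    refine h2.trans (Real.exp_le_exp.2 ?_)
    have h3 : y * (u + u ^ 2) ≤ β * (L * y - 4 * g * x) + y * (β * (L + 4 * g0)) ^ 2 := by
      have := mul_le_mul_of_nonneg_left husq hy
      nlinarith
    have h4 : y ^ 2 = x ^ 2 := by rw [← hxy, sq_abs]
    have h5 : L' * y - kap ≤ 2 * y ^ 2 := by
      rw [hkap]; nlinarith [sq_nonneg (y - L' / 4)]
    have h6 : β * (L * y - 4 * g * x) + y * (β * (L + 4 * g0)) ^ 2 +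
        β * (-kap + 2 * g ^ 2) = β * (L' * y - kap - 4 * g * x + 2 * g ^ 2) := by
      rw [hL']; ring
    have h7 : β * (L' * y - kap - 4 * g * x + 2 * g ^ 2) ≤ β * K := by
      refine mul_le_mul_of_nonneg_left ?_ hβ.le
      nlinarith
    linarith
  rcases le_total 0 x with h0 | h0
  · have hmin : min (cum r i) (cum p j) = cum p j := min_eq_right (by linarith)
    rw [hmin, sub_self, zero_mul, add_zero, ← hx]
    refine hfin x u1 h0 (abs_of_nonneg h0) ?_ ?_ ?_
    · refine le_trans ?_ hsmall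
      exact mul_le_mul_of_nonneg_left (by linarith [hgl.1]) hβ.le
    · rw [hu1]
      have : |β * (L - 4 * g)| ≤ |β * (L + 4 * g0)| := by
        rw [abs_mul, abs_mul]
        refine mul_le_mul_of_nonneg_left ?_ (abs_nonneg _)
        rw [abs_of_nonneg (by linarith : 0 ≤ L + 4 * g0), abs_le]
        constructor <;> linarith [hgl.1, hgl.2]
      exact sq_le_sq.2 this
    · rw [hu1]; ring
  · have hmin : min (cum r i) (cum p j) = cum r i := min_eq_left (by linarith)
    rw [hmin, sub_self, zero_mul, add_zero]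
    have hneg : cum p j - cum r i = -x := by rw [hx]; ring
    rw [hneg]
    refine hfin (-x) u2 (by linarith) (abs_of_nonpos h0) ?_ ?_ ?_
    · refine le_trans ?_ hsmall
      exact mul_le_mul_of_nonneg_left (by linarith [hgl.2]) hβ.le
    · rw [hu2]
      have : |β * (L + 4 * g)| ≤ |β * (L + 4 * g0)| := by
        rw [abs_mul, abs_mul]
        refine mul_le_mul_of_nonneg_left ?_ (abs_nonneg _)
        rw [abs_of_nonneg (by linarith : 0 ≤ L + 4 * g0), abs_le]
        constructor <;> linarith [hgl.1, hgl.2]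
      exact sq_le_sq.2 this
    · rw [hu2]; ring

end Pool.Agent.F155AS
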