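import Pool.Agent.F155AS.Cheb

/-! The penalised distance of a chain to the family, and reversal of colourings.

PROOFS. `B j (rev c) = (B (m + 1 - j) c)ᶜ` for `j ≤ m + 1`.  `dt_add_rev`: if both sides are
attained at `(j, A)`, `(i, A')`, put `l = m + 1 - i`: `B i (rev c) = (B l c)ᶜ`, the sets `B j c`,
`B l c` are nested, so `n - | |B_j| - |B_l| | = |B_j Δ (B_l)ᶜ| ≤ |B_j Δ A| + |A Δ A'| +
|A' Δ (B_l)ᶜ|` and `| |B_j| - |B_l| | ≤ | |B_j| - n/2 | + | |B_l| - n/2 |`.
`half_le`: substitute `c ↦ rev c` in the sum; the law is symmetric. -/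

set_option autoImplicit false

namespace Pool.Agent.F155AS

open Finset

/-- the values over which `dt` is the minimum -/
noncomputable def vals {n m : ℕ} (k : ℕ) (F : Finset (Finset (Fin n)))
    (c : Fin n → Fin (m + 1)) : Finset ℝ :=
  insert (k : ℝ) ((Icc 1 m ×ˢ F).image fun x =>
    ((symmDiff (B x.1 c) x.2).card : ℝ) + |((B x.1 c).card : ℝ) - n / 2|)

/-- minimum of `k` and of all `|B_j Δ A| + ||B_j| - n/2|`, `1 ≤ j ≤ m`, `A ∈ F` -/
noncomputable def dt {n m : ℕ} (k : ℕ) (F : Finset (Finset (Fin n)))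
    (c : Fin n → Fin (m + 1)) : ℝ := (vals k F c).min' (insert_nonempty _ _)

/-- reversed colouring -/
def rv {n m : ℕ} (c : Fin n → Fin (m + 1)) : Fin n → Fin (m + 1) := fun i => Fin.rev (c i)

theorem dt_le_k {n m : ℕ} (k : ℕ) (F : Finset (Finset (Fin n))) (c : Fin n → Fin (m + 1)) :
    dt k F c ≤ k := by
  unfold dt
  apply Finset.min'_le
  unfold vals
  exact mem_insert_self _ _

theorem dt_mem {n m : ℕ} (k : ℕ) (F : Finset (Finset (Fin n))) (c : Fin n → Fin (m + 1)) :
    dt k F c = k ∨ ∃ j, 1 ≤ j ∧ j ≤ m ∧ ∃ A ∈ F,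
      dt k F c = ((symmDiff (B j c) A).card : ℝ) + |((B j c).card : ℝ) - n / 2| := by
  have h := Finset.min'_mem (vals k F c) (insert_nonempty _ _)
  have h2 : dt k F c ∈ vals k F c := h
  unfold vals at h2
  rw [mem_insert] at h2
  rcases h2 with h2 | h2
  · left; exact h2
  · right
    rw [mem_image] at h2
    obtain ⟨x, hx, hx2⟩ := h2
    rw [mem_product, mem_Icc] at hx
    exact ⟨x.1, hx.1.1, hx.1.2, x.2, hx.2, hx2.symm⟩

theorem dt_nonneg {n m : ℕ} (k : ℕ) (F : Finset (Finset (Fin n))) (c : Fin n → Fin (m + 1)) :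
    0 ≤ dt k F c := by
  rcases dt_mem k F c with h | ⟨j, _, _, A, _, h⟩
  · rw [h]; positivity
  · rw [h]; positivity

theorem dt_le {n m : ℕ} (k : ℕ) (F : Finset (Finset (Fin n))) (c : Fin n → Fin (m + 1))
    (j : ℕ) (h1 : 1 ≤ j) (h2 : j ≤ m) (A : Finset (Fin n)) (hA : A ∈ F) :
    dt k F c ≤ ((symmDiff (B j c) A).card : ℝ) + |((B j c).card : ℝ) - n / 2| := by
  unfold dt
  apply Finset.min'_le
  unfold vals
  apply mem_insert_of_mem
  rw [mem_image]
  exact ⟨(j, A), by rw [mem_product, mem_Icc]; exact ⟨⟨h1, h2⟩, hA⟩, rfl⟩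

theorem B_mono {n m : ℕ} (c : Fin n → Fin (m + 1)) {j l : ℕ} (h : j ≤ l) : B j c ⊆ B l c := by
  intro i hi
  simp only [B, mem_filter, mem_univ, true_and] at hi ⊢
  omega

theorem B_rv {n m : ℕ} (c : Fin n → Fin (m + 1)) {i : ℕ} (hi : i ≤ m + 1) :
    B i (rv c) = (B (m + 1 - i) c)ᶜ := by
  ext x
  simp only [B, rv, mem_filter, mem_univ, true_and, mem_compl, Fin.val_rev]
  have := (c x).isLt
  omega

theorem card_symmDiff_B {n m : ℕ} (c : Fin n → Fin (m + 1)) (j l : ℕ) :
    ((symmDiff (B j c) (B l c)).card : ℝ) = |((B j c).card : ℝ) - (B l c).card| := by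
  rcases le_total j l with h | h
  · have h1 := B_mono c h
    have h2 : symmDiff (B j c) (B l c) = B l c \ B j c := by
      rw [symmDiff_def, Finset.sup_eq_union, sdiff_eq_empty_iff_subset.mpr h1, empty_union]
    have h3 := card_le_card h1
    rw [h2, card_sdiff_of_subset h1, Nat.cast_sub h3, abs_sub_comm, abs_of_nonneg]
    rw [sub_nonneg]
    exact_mod_cast h3
  · have h1 := B_mono c h
    have h2 : symmDiff (B j c) (B l c) = B j c \ B l c := by
      rw [symmDiff_def, Finset.sup_eq_union, sdiff_eq_empty_iff_subset.mpr h1, union_empty]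
    have h3 := card_le_card h1
    rw [h2, card_sdiff_of_subset h1, Nat.cast_sub h3, abs_of_nonneg]
    rw [sub_nonneg]
    exact_mod_cast h3

theorem card_symmDiff_compl {n : ℕ} (A C : Finset (Fin n)) :
    ((symmDiff A Cᶜ).card : ℝ) = n - (symmDiff A C).card := by
  have h1 : symmDiff A Cᶜ = (symmDiff A C)ᶜ := by
    ext x
    simp only [mem_symmDiff, mem_compl]
    tauto
  have h2 := Finset.card_le_univ (symmDiff A C)
  rw [Fintype.card_fin] at h2
  rw [h1, card_compl, Fintype.card_fin, Nat.cast_sub h2]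

theorem card_symmDiff_tri {n : ℕ} (A C D : Finset (Fin n)) :
    ((symmDiff A D).card : ℝ) ≤ (symmDiff A C).card + (symmDiff C D).card := by
  have h1 : symmDiff A D ⊆ symmDiff A C ∪ symmDiff C D := by
    intro x hx
    simp only [mem_union, mem_symmDiff] at hx ⊢
    tauto
  have h2 := (card_le_card h1).trans (card_union_le _ _)
  exact_mod_cast h2

theorem dt_add_rev {n m : ℕ} (k : ℕ) (hk : k ≤ n) (F : Finset (Finset (Fin n)))
    (hd : ∀ A ∈ F, ∀ A' ∈ F, (symmDiff A A').card ≤ n - k) (c : Fin n → Fin (m + 1)) :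
    (k : ℝ) ≤ dt k F c + dt k F (rv c) := by
  have hn1 := dt_nonneg k F c
  have hn2 := dt_nonneg k F (rv c)
  rcases dt_mem k F c with h | ⟨j, hj1, hj2, A, hA, h⟩
  · linarith
  · rcases dt_mem k F (rv c) with h' | ⟨i, hi1, hi2, A', hA', h'⟩
    · linarith
    · rw [h, h']
      have hB : B i (rv c) = (B (m + 1 - i) c)ᶜ := B_rv c (by omega)
      set l := m + 1 - i with hl
      have hcard : ((B i (rv c)).card : ℝ) = n - (B l c).card := by
        have h2 := Finset.card_le_univ (B l c)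
        rw [Fintype.card_fin] at h2
        rw [hB, card_compl, Fintype.card_fin, Nat.cast_sub h2]
      have h1 := card_symmDiff_compl (B j c) (B l c)
      rw [card_symmDiff_B] at h1
      have h2 := card_symmDiff_tri (B j c) A (B l c)ᶜ
      have h3 := card_symmDiff_tri A A' (B l c)ᶜ
      have h4 : ((symmDiff A A').card : ℝ) ≤ n - k := by
        have h5 := hd A hA A' hA'
        have h6 : ((symmDiff A A').card : ℝ) ≤ ((n - k : ℕ) : ℝ) := by exact_mod_cast h5
        rw [Nat.cast_sub hk] at h6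
        exact h6
      rw [hcard, hB]
      have h7 : symmDiff (B l c)ᶜ A' = symmDiff A' (B l c)ᶜ := symmDiff_comm _ _
      rw [h7]
      have h8 : |((B j c).card : ℝ) - (B l c).card| ≤
          |((B j c).card : ℝ) - n / 2| + |(n : ℝ) - (B l c).card - n / 2| := by
        have h9 : ((B j c).card : ℝ) - (B l c).card =
            (((B j c).card : ℝ) - n / 2) + ((n : ℝ) - (B l c).card - n / 2) := by ring
        rw [h9]
        exact abs_add_le _ _
      linarith

theorem rv_rv {n m : ℕ} (c : Fin n → Fin (m + 1)) : rv (rv c) = c := by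
  funext i
  simp [rv]

theorem ex_rev {n m : ℕ} (p : Fin (m + 1) → ℝ) (hp : ∀ a, p (Fin.rev a) = p a)
    (f : (Fin n → Fin (m + 1)) → ℝ) : Ex p n (fun c => f (rv c)) = Ex p n f := by
  unfold Ex
  have h1 := Equiv.sum_comp (Function.Involutive.toPerm (rv : (Fin n → Fin (m + 1)) → _) rv_rv)
    (fun c => wt p c * f c)
  rw [← h1]
  apply Finset.sum_congr rfl
  intro c _
  have h2 : (Function.Involutive.toPerm (rv : (Fin n → Fin (m + 1)) → _) rv_rv) c = rv c := rfl
  rw [h2]
  congr 1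
  unfold wt rv
  simp only [hp]

theorem half_le {n m : ℕ} (p : Fin (m + 1) → ℝ) (hp0 : ∀ a, 0 ≤ p a) (hp1 : ∑ a, p a = 1)
    (hp : ∀ a, p (Fin.rev a) = p a) (k : ℕ) (hk : k ≤ n) (F : Finset (Finset (Fin n)))
    (hd : ∀ A ∈ F, ∀ A' ∈ F, (symmDiff A A').card ≤ n - k) :
    (k : ℝ) / 2 ≤ Ex p n (dt k F) := by
  have h1 := chb_mono p hp0 n (fun _ => (k : ℝ) * 1) (fun c => dt k F c + dt k F (rv c))
    (fun c => by rw [mul_one]; exact dt_add_rev k hk F hd c)
  rw [chb_smul, chb_one p hp1, chb_add, ex_rev p hp] at h1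
  have h2 : Ex p n (fun c => dt k F c) = Ex p n (dt k F) := rfl
  have h3 : Ex p n (fun c => dt k F (rv c)) = Ex p n (dt k F) := ex_rev p hp (dt k F)
  linarith

theorem law_rev (J : ℕ) (h : ℝ) (a : Fin (2 * J + 1 + 1)) : law J h (Fin.rev a) = law J h a := by
  unfold law
  have h1 : ((Fin.rev a : Fin (2 * J + 1 + 1)) : ℕ) = 2 * J + 1 - a := by
    rw [Fin.val_rev]
    omega
  have h2 : (((Fin.rev a : Fin (2 * J + 1 + 1)) : ℕ) = 0 ∨
      ((Fin.rev a : Fin (2 * J + 1 + 1)) : ℕ) = 2 * J + 1) ↔ ((a : ℕ) = 0 ∨ (a : ℕ) = 2 * J + 1) := by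
    rw [h1]
    have := a.isLt
    omega
  simp only [h2]

theorem law_pos (J : ℕ) (h : ℝ) (hh : 0 < h) (hJ : J * h < 1 / 2) (a : Fin (2 * J + 1 + 1)) :
    0 < law J h a := by
  unfold law
  split_ifs
  · linarith
  · exact hh

theorem cum_succ {m : ℕ} (r : Fin (m + 1) → ℝ) (a : Fin (m + 1)) :
    cum r ((a : ℕ) + 1) = cum r (a : ℕ) + r a := by
  unfold cum
  have h1 : ∀ b : Fin (m + 1), r b * ind ((a : ℕ) + 1) b =
      r b * ind (a : ℕ) b + (if b = a then r a else 0) := by
    intro b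
    unfold ind
    by_cases hb : b = a
    · rw [hb]
      simp
    · have hb' : (b : ℕ) ≠ a := fun h => hb (Fin.ext h)
      by_cases hlt : (b : ℕ) < a
      · rw [if_pos (by omega), if_pos hlt, if_neg hb]
        ring
      · rw [if_neg (by omega), if_neg hlt, if_neg hb]
        ring
  simp only [h1, Finset.sum_add_distrib, Finset.sum_ite_eq', mem_univ, if_true]

theorem cum_law (J : ℕ) (h : ℝ) (j : ℕ) (h1 : 1 ≤ j) (h2 : j ≤ 2 * J + 1) :
    cum (law J h) j = 1 / 2 + ((j : ℝ) - 1 - J) * h := by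
  induction j, h1 using Nat.le_induction with
  | base =>
    have h3 := cum_succ (law J h) (0 : Fin (2 * J + 1 + 1))
    have h4 : cum (law J h) ((0 : Fin (2 * J + 1 + 1)) : ℕ) = 0 := by
      unfold cum ind
      simp
    rw [h4] at h3
    have h5 : ((0 : Fin (2 * J + 1 + 1)) : ℕ) + 1 = 1 := by simp
    rw [h5] at h3
    rw [h3]
    unfold law
    simp
    ring
  | succ j hj ih =>
    have h3 := cum_succ (law J h) (⟨j, by omega⟩ : Fin (2 * J + 1 + 1))
    have h5 : ((⟨j, by omega⟩ : Fin (2 * J + 1 + 1)) : ℕ) = j := rfl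
    rw [h5] at h3
    rw [h3, ih (by omega)]
    have h6 : law J h (⟨j, by omega⟩ : Fin (2 * J + 1 + 1)) = h := by
      unfold law
      rw [if_neg]
      simp only
      omega
    rw [h6]
    push_cast
    ring

end Pool.Agent.F155AS
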