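import Pool.Agent.F155AS.PT

/-! The one-site lemma: monotone coupling and the two-point Pinsker inequality. -/

set_option autoImplicit false

namespace Pool.Agent.F155AS

open Finset

section coupling

variable {m : ℕ}

theorem cum_zero (r : Fin (m + 1) → ℝ) : cum r 0 = 0 := by simp [cum, ind]

theorem cum_top (r : Fin (m + 1) → ℝ) : cum r (m + 1) = ∑ a, r a := by
  unfold cum ind
  refine sum_congr rfl fun a _ => ?_
  simp [a.2]

theorem cum_succ' (r : Fin (m + 1) → ℝ) (a : Fin (m + 1)) : cum r (a + 1) = cum r a + r a := by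
  unfold cum
  have h : ∀ b : Fin (m + 1), r b * ind (a + 1) b = r b * ind a b + if b = a then r a else 0 := by
    intro b
    unfold ind
    rcases lt_trichotomy (b : ℕ) a with h | h | h
    · have h2 : b ≠ a := fun e => by rw [e] at h; exact lt_irrefl _ h
      simp [h, h2, Nat.lt_succ_of_lt h]
    · have h2 : b = a := Fin.ext h
      simp [h2]
    · have h2 : b ≠ a := fun e => by rw [e] at h; exact lt_irrefl _ h
      have h3 : ¬ (b : ℕ) < a := by omega
      have h4 : ¬ (b : ℕ) < a + 1 := by omega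
      simp [h2, h3, h4]
  rw [sum_congr rfl fun b _ => h b, sum_add_distrib]
  simp

theorem cum_nonneg (r : Fin (m + 1) → ℝ) (hr : ∀ a, 0 ≤ r a) (j : ℕ) : 0 ≤ cum r j := by
  unfold cum ind
  refine sum_nonneg fun a _ => mul_nonneg (hr a) ?_
  split_ifs <;> norm_num

theorem cum_le_one (r : Fin (m + 1) → ℝ) (hr : ∀ a, 0 ≤ r a) (h1 : ∑ a, r a = 1) (j : ℕ) :
    cum r j ≤ 1 := by
  rw [← h1]
  unfold cum ind
  refine sum_le_sum fun a _ => ?_
  split_ifs
  · simp
  · simpa using hr a

/-- telescoping for functions of the number of smaller colours -/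
theorem tele (f : ℕ → ℝ) (j : ℕ) (hj : j ≤ m + 1) :
    ∑ a : Fin (m + 1), (f (a + 1) - f a) * ind j a = f j - f 0 := by
  have h1 : ∑ a : Fin (m + 1), (f (a + 1) - f a) * ind j a =
      ∑ a ∈ range (m + 1), (f (a + 1) - f a) * (if a < j then 1 else 0) := by
    rw [← Fin.sum_univ_eq_sum_range (fun a => (f (a + 1) - f a) * (if a < j then (1 : ℝ) else 0))]
    rfl
  rw [h1]
  have h2 : ∑ a ∈ range (m + 1), (f (a + 1) - f a) * (if a < j then (1 : ℝ) else 0) =
      ∑ a ∈ range j, (f (a + 1) - f a) := by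
    have h3 : range j = (range (m + 1)).filter (· < j) := by
      ext x; simp; omega
    rw [h3, sum_filter]
    refine sum_congr rfl fun a _ => ?_
    split_ifs <;> simp
  rw [h2, sum_range_sub]

theorem ind_min (j : ℕ) (a : Fin (m + 1)) : ind (min j (m + 1)) a = ind j a := by
  unfold ind
  have : ((a : ℕ) < min j (m + 1)) ↔ (a : ℕ) < j := by
    have := a.2
    omega
  simp only [this]

theorem cum_min (r : Fin (m + 1) → ℝ) (j : ℕ) : cum r (min j (m + 1)) = cum r j := by
  unfold cum
  simp only [ind_min]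

theorem ind_top (a : Fin (m + 1)) : ind (m + 1) a = 1 := by
  unfold ind; simp [a.2]

theorem cum_mono (r : Fin (m + 1) → ℝ) (hr : ∀ a, 0 ≤ r a) (i j : ℕ) (h : i ≤ j) :
    cum r i ≤ cum r j := by
  unfold cum ind
  refine sum_le_sum fun a _ => mul_le_mul_of_nonneg_left ?_ (hr a)
  split_ifs with h1 h2
  · rfl
  · omega
  · norm_num
  · rfl

/-- the monotone coupling -/
theorem coupling (r p : Fin (m + 1) → ℝ) (hr : ∀ a, 0 ≤ r a) (hr1 : ∑ a, r a = 1)
    (hp : ∀ a, 0 ≤ p a) (hp1 : ∑ a, p a = 1) :
    ∃ π : Fin (m + 1) → Fin (m + 1) → ℝ, (∀ a b, 0 ≤ π a b) ∧ (∀ a, ∑ b, π a b = r a) ∧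
      (∀ b, ∑ a, π a b = p b) ∧
      ∀ i j : ℕ, ∑ a, ∑ b, π a b * (ind i a * ind j b) = min (cum r i) (cum p j) := by
  set H : ℕ → ℕ → ℝ := fun i j => min (cum r i) (cum p j) with hH
  set π : Fin (m + 1) → Fin (m + 1) → ℝ := fun a b =>
    (H (a + 1) (b + 1) - H a (b + 1)) - (H (a + 1) b - H a b) with hπ
  have key : ∀ i j : ℕ, i ≤ m + 1 → j ≤ m + 1 →
      ∑ a, ∑ b, π a b * (ind i a * ind j b) = H i j := by
    intro i j hi hj
    have h1 : ∀ a : Fin (m + 1), ∑ b, π a b * (ind i a * ind j b) =
        (H (a + 1) j - H a j) * ind i a := by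
      intro a
      have h2 := tele (m := m) (fun t => H (a + 1) t - H a t) j hj
      have h3 : H (a + 1) 0 - H a 0 = 0 := by
        simp only [hH, cum_zero]
        rw [min_eq_right (cum_nonneg r hr _), min_eq_right (cum_nonneg r hr _), sub_zero]
      rw [h3, sub_zero] at h2
      rw [← h2, sum_mul]
      refine sum_congr rfl fun b _ => ?_
      simp only [hπ]
      ring
    rw [sum_congr rfl fun a _ => h1 a, tele (m := m) (fun t => H t j) i hi]
    have h3 : H 0 j = 0 := by
      simp only [hH, cum_zero]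
      exact min_eq_left (cum_nonneg p hp _)
    rw [h3, sub_zero]
  refine ⟨π, ?_, ?_, ?_, ?_⟩
  · intro a b
    have h1 := cum_succ' r a
    have h2 := cum_succ' p b
    have h3 := hr a
    have h4 := hp b
    simp only [hπ, hH, h1, h2]
    rcases le_total (cum r a + r a) (cum p b + p b) with e1 | e1 <;>
    rcases le_total (cum r a) (cum p b + p b) with e2 | e2 <;>
    rcases le_total (cum r a + r a) (cum p b) with e3 | e3 <;>
    rcases le_total (cum r a) (cum p b) with e4 | e4 <;>
    simp only [min_eq_left, min_eq_right, e1, e2, e3, e4] <;> linarith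
  · intro a
    have h2 := tele (m := m) (fun t => H (a + 1) t - H a t) (m + 1) le_rfl
    have h3 : H (a + 1) 0 - H a 0 = 0 := by
      simp only [hH, cum_zero]
      rw [min_eq_right (cum_nonneg r hr _), min_eq_right (cum_nonneg r hr _), sub_zero]
    rw [h3, sub_zero] at h2
    have h4 : ∑ b, π a b = H (a + 1) (m + 1) - H a (m + 1) := by
      rw [← h2]
      refine sum_congr rfl fun b _ => ?_
      rw [ind_top, mul_one]
    rw [h4]
    simp only [hH, cum_top, hp1]
    rw [min_eq_left (cum_le_one r hr hr1 _), min_eq_left (cum_le_one r hr hr1 _), cum_succ']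
    ring
  · intro b
    have h2 := tele (m := m) (fun t => H t (b + 1) - H t b) (m + 1) le_rfl
    have h3 : H 0 (b + 1) - H 0 b = 0 := by
      simp only [hH, cum_zero]
      rw [min_eq_left (cum_nonneg p hp _), min_eq_left (cum_nonneg p hp _), sub_zero]
    rw [h3, sub_zero] at h2
    have h4 : ∑ a, π a b = H (m + 1) (b + 1) - H (m + 1) b := by
      rw [← h2]
      refine sum_congr rfl fun a _ => ?_
      rw [ind_top, mul_one]
      simp only [hπ]
      ring
    rw [h4]
    simp only [hH, cum_top, hr1]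
    rw [min_eq_right (cum_le_one p hp hp1 _), min_eq_right (cum_le_one p hp hp1 _), cum_succ']
    ring
  · intro i j
    have h := key (min i (m + 1)) (min j (m + 1)) (min_le_right _ _) (min_le_right _ _)
    simp only [ind_min] at h
    rw [h]
    simp only [hH, cum_min]

end coupling

end Pool.Agent.F155AS
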