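import Pool.Agent.F155AS.Pinsker
import Pool.Agent.F155AS.Rev
import Pool.Agent.F155AS.ChainW

/-! The terminal inequality of the product induction. -/

set_option autoImplicit false

namespace Pool.Agent.F155AS

open Finset

variable {n m : ℕ}

theorem sum_ind (j : ℕ) (c : Fin n → Fin (m + 1)) : ∑ l, ind j (c l) = ((B j c).card : ℝ) := by
  unfold ind B
  rw [card_filter]
  push_cast
  rfl

theorem sum_ind_mul (i j : ℕ) (c' c : Fin n → Fin (m + 1)) :
    ∑ l, ind i (c' l) * ind j (c l) = ((B i c' ∩ B j c).card : ℝ) := by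
  unfold ind B
  rw [← filter_and, card_filter]
  push_cast
  refine sum_congr rfl fun l _ => ?_
  by_cases h1 : (c' l : ℕ) < i <;> by_cases h2 : (c l : ℕ) < j <;> simp [h1, h2]

theorem card_symmDiff_real (A A' : Finset (Fin n)) :
    ((symmDiff A A').card : ℝ) = A.card + A'.card - 2 * (A ∩ A').card := by
  have h1 : (symmDiff A A').card = (A \ A').card + (A' \ A).card := by
    rw [symmDiff_def, sup_eq_union, card_union_of_disjoint]
    exact disjoint_sdiff_sdiff
  have h2 := card_sdiff_add_card_inter A A'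
  have h3 := card_sdiff_add_card_inter A' A
  rw [inter_comm A' A] at h3
  have h4 : (symmDiff A A').card + 2 * (A ∩ A').card = A.card + A'.card := by omega
  have h5 : ((symmDiff A A').card : ℝ) + 2 * (A ∩ A').card = A.card + A'.card := by
    exact_mod_cast h4
  linarith

theorem sum_inc (p : Fin (m + 1) → ℝ) (L kap : ℝ) (i j : ℕ) (c' c : Fin n → Fin (m + 1)) :
    ∑ l, inc p L kap (i, j) (c' l) (c l) =
      L * ((symmDiff (B i c') (B j c)).card : ℝ) -
        4 * (cum p i - cum p j) * (((B i c').card : ℝ) - (B j c).card) - n * kap +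
        2 * n * (cum p i - cum p j) ^ 2 := by
  rw [card_symmDiff_real, ← sum_ind, ← sum_ind, ← sum_ind_mul]
  simp only [inc]
  rw [sum_add_distrib, sum_sub_distrib, sum_sub_distrib, ← mul_sum, ← mul_sum,
    sum_sub_distrib, sum_sub_distrib, sum_add_distrib, ← mul_sum]
  simp only [sum_const, card_univ, Fintype.card_fin, nsmul_eq_mul]
  ring

theorem sum_inc_ge (hn : 0 < n) (p : Fin (m + 1) → ℝ) (L kap : ℝ) (i j : ℕ)
    (c' c : Fin n → Fin (m + 1)) :
    L * ((symmDiff (B i c') (B j c)).card : ℝ) -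
      2 * (((B i c').card : ℝ) - (B j c).card) ^ 2 / n - n * kap ≤
    ∑ l, inc p L kap (i, j) (c' l) (c l) := by
  rw [sum_inc]
  have hn' : (0 : ℝ) < n := by exact_mod_cast hn
  set g := cum p i - cum p j
  set y := ((B i c').card : ℝ) - (B j c).card
  have h1 : 2 * n * g ^ 2 - 4 * g * y + 2 * y ^ 2 / n = 2 * n * (g - y / n) ^ 2 := by
    field_simp
    ring
  have h2 : 0 ≤ 2 * n * (g - y / n) ^ 2 := by positivity
  linarith

theorem sum_inc_self (p : Fin (m + 1) → ℝ) (L kap : ℝ) (hL : 0 ≤ L) (i : ℕ)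
    (c' c : Fin n → Fin (m + 1)) :
    -(n * kap) ≤ ∑ l, inc p L kap (i, i) (c' l) (c l) := by
  rw [sum_inc, sub_self]
  have : 0 ≤ L * ((symmDiff (B i c') (B i c)).card : ℝ) := by positivity
  nlinarith

theorem net (s : ℕ → ℝ) (M : ℕ) (y : ℝ) (h1 : s 1 ≤ y) (h2 : y < s M) (hM : 1 ≤ M) :
    ∃ j, 1 ≤ j ∧ j < M ∧ s j ≤ y ∧ y < s (j + 1) := by
  induction M with
  | zero => omega
  | succ M ih =>
    rcases Nat.eq_zero_or_pos M with h0 | h0
    · subst h0
      exact absurd h2 (not_lt.2 h1)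
    · rcases lt_or_ge y (s M) with h | h
      · obtain ⟨j, hj1, hj2, hj3, hj4⟩ := ih h h0
        exact ⟨j, hj1, by omega, hj3, hj4⟩
      · exact ⟨M, h0, by omega, h, h2⟩

theorem wavg {ι : Type} (F : Finset ι) (w r : ι → ℝ) (hw : ∀ a ∈ F, 0 ≤ w a)
    (hr : ∀ a ∈ F, 0 ≤ r a) (h1 : ∑ a ∈ F, w a ≤ 1) :
    (∑ a ∈ F, w a * r a = 0) ∨ ∃ a ∈ F, 0 < w a ∧ ∑ a ∈ F, w a * r a ≤ r a := by
  classical
  rcases (F.filter fun a => 0 < w a).eq_empty_or_nonempty with h | h
  · left
    refine sum_eq_zero fun a ha => ?_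
    have : ¬ 0 < w a := fun h' => by
      have h2 : a ∈ F.filter fun a => 0 < w a := mem_filter.2 ⟨ha, h'⟩
      rw [h] at h2
      exact notMem_empty _ h2
    have h3 : w a = 0 := le_antisymm (not_lt.1 this) (hw a ha)
    rw [h3, zero_mul]
  · right
    obtain ⟨a, ha, hmax⟩ := exists_max_image _ r h
    rw [mem_filter] at ha
    refine ⟨a, ha.1, ha.2, ?_⟩
    have h2 : ∑ b ∈ F, w b * r b ≤ ∑ b ∈ F, w b * r a := by
      refine sum_le_sum fun b hb => ?_
      rcases (hw b hb).eq_or_lt with h0 | h0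
      · rw [← h0, zero_mul, zero_mul]
      · exact mul_le_mul_of_nonneg_left (hmax b (mem_filter.2 ⟨hb, h0⟩)) h0.le
    refine h2.trans ?_
    rw [← sum_mul]
    exact mul_le_of_le_one_left (hr a ha.1) h1

open Classical in
/-- the function `R` -/
noncomputable def Rf (L t e : ℝ) (k : ℕ) (F : Finset (Finset (Fin n)))
    (c : Fin n → Fin (m + 1)) : ℝ := if Good t e c then -(L * dt k F c) else 0

open Classical in
/-- the function `G` -/
noncomputable def Gf (t e E : ℝ) (F : Finset (Finset (Fin n)))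
    (c : Fin n → Fin (m + 1)) : ℝ :=
  if Good t e c then
    (∑ A ∈ F, pw c A * ((n.choose A.card : ℝ) / n.choose (n / 2))) * Real.exp (-E) else 0

theorem ratio_le_one (l : ℕ) : (n.choose l : ℝ) / n.choose (n / 2) ≤ 1 := by
  rw [div_le_one (by exact_mod_cast Nat.choose_pos (Nat.div_le_self n 2))]
  exact_mod_cast Nat.choose_le_middle l n

theorem mid_pos : (0 : ℝ) < n.choose (n / 2) := by
  exact_mod_cast Nat.choose_pos (Nat.div_le_self n 2)

theorem symmDiff_tri (A A' A'' : Finset (Fin n)) :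
    ((symmDiff A A'').card : ℝ) ≤ (symmDiff A A').card + (symmDiff A' A'').card := by
  have h : symmDiff A A'' ⊆ symmDiff A A' ∪ symmDiff A' A'' := by
    intro x
    simp only [mem_union, mem_symmDiff]
    tauto
  have h2 := (card_le_card h).trans (card_union_le _ _)
  exact_mod_cast h2

theorem terminal (hn : 0 < n) (hm : 1 ≤ m) (p : Fin (m + 1) → ℝ) (k : ℕ)
    (F : Finset (Finset (Fin n))) (hF : IsAntichain (· ⊆ ·) (F : Set (Finset (Fin n))))
    (L kap t e δ err K : ℝ) (hL : 0 ≤ L) (ht : 0 < t) (he : 0 ≤ e) (hδ : 0 ≤ δ)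
    (hbin : ∀ l : ℕ, l ≤ n → |(l : ℝ) - n / 2| ≤ t →
      (n.choose l : ℝ) ≤ Real.exp (-(2 * ((l : ℝ) - n / 2) ^ 2 / n) + δ) * n.choose (n / 2))
    (htail : ∀ l : ℕ, l ≤ n → t ≤ |(l : ℝ) - n / 2| →
      (n.choose l : ℝ) ≤ Real.exp (-(2 * K ^ 2) + δ) * n.choose (n / 2))
    (hLk : L * k ≤ 2 * K ^ 2) (herr : δ + 2 * L * e + 8 * (t * e + e ^ 2) / n ≤ err)
    (c' c : Fin n → Fin (m + 1)) :
    ∃ ij : Fin m × Fin m, Gf t e (n * kap + err) F c' ≤
      Real.exp (Rf L t e k F c + ∑ l, inc p L kap (ij.1 + 1, ij.2 + 1) (c' l) (c l)) := by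
  have hn' : (0 : ℝ) < n := by exact_mod_cast hn
  have hM := mid_pos (n := n)
  have herr0 : δ ≤ err := by
    have : 0 ≤ 2 * L * e + 8 * (t * e + e ^ 2) / n := by positivity
    linarith
  by_cases hc' : Good t e c'
  swap
  · refine ⟨(⟨0, hm⟩, ⟨0, hm⟩), ?_⟩
    unfold Gf
    rw [if_neg hc']
    exact (Real.exp_pos _).le
  have hsum := sum_pw_le_one c' F hF
  have hgf : Gf t e (n * kap + err) F c' =
      (∑ A ∈ F, pw c' A * ((n.choose A.card : ℝ) / n.choose (n / 2))) *
        Real.exp (-(n * kap + err)) := by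
    unfold Gf; rw [if_pos hc']
  by_cases hc : Good t e c
  swap
  · refine ⟨(⟨0, hm⟩, ⟨0, hm⟩), ?_⟩
    have hR : Rf L t e k F c = 0 := by unfold Rf; rw [if_neg hc]
    rw [hgf, hR, zero_add]
    have h1 : ∑ A ∈ F, pw c' A * ((n.choose A.card : ℝ) / n.choose (n / 2)) ≤ 1 := by
      refine le_trans (sum_le_sum fun A _ => ?_) hsum
      exact mul_le_of_le_one_right (pw_nonneg c' A) (ratio_le_one _)
    have h2 := sum_inc_self p L kap hL (0 + 1) c' c
    have h3 : (∑ A ∈ F, pw c' A * ((n.choose A.card : ℝ) / n.choose (n / 2))) *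
        Real.exp (-(n * kap + err)) ≤ Real.exp (-(n * kap + err)) :=
      mul_le_of_le_one_left (Real.exp_pos _).le h1
    refine h3.trans (Real.exp_le_exp.2 ?_)
    simp only
    linarith
  have hR : Rf L t e k F c = -(L * dt k F c) := by unfold Rf; rw [if_pos hc]
  rcases wavg F (pw c') (fun A => (n.choose A.card : ℝ) / n.choose (n / 2))
    (fun A _ => pw_nonneg c' A) (fun A _ => by positivity) hsum with h0 | ⟨A, hA, hpos, hle⟩
  · refine ⟨(⟨0, hm⟩, ⟨0, hm⟩), ?_⟩
    rw [hgf, h0, zero_mul]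
    exact (Real.exp_pos _).le
  have hcomp := fun j => compatible_of_pw_pos c' A hpos j
  have hAn : A.card ≤ n := by simpa using card_le_univ A
  have hgle : Gf t e (n * kap + err) F c' ≤
      (n.choose A.card : ℝ) / n.choose (n / 2) * Real.exp (-(n * kap + err)) := by
    rw [hgf]; exact mul_le_mul_of_nonneg_right hle (Real.exp_pos _).le
  rcases le_or_gt t |(A.card : ℝ) - n / 2| with hx | hx
  · -- far level
    refine ⟨(⟨0, hm⟩, ⟨0, hm⟩), hgle.trans ?_⟩
    have h1 : (n.choose A.card : ℝ) / n.choose (n / 2) ≤ Real.exp (-(2 * K ^ 2) + δ) := by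
      rw [div_le_iff₀ hM]; exact htail _ hAn hx
    have h2 := sum_inc_self p L kap hL (0 + 1) c' c
    have h3 : L * dt k F c ≤ 2 * K ^ 2 :=
      (mul_le_mul_of_nonneg_left (dt_le_k k F c) hL).trans hLk
    have h4 : (n.choose A.card : ℝ) / n.choose (n / 2) * Real.exp (-(n * kap + err)) ≤
        Real.exp (-(2 * K ^ 2) + δ) * Real.exp (-(n * kap + err)) :=
      mul_le_mul_of_nonneg_right h1 (Real.exp_pos _).le
    refine h4.trans ?_
    rw [← Real.exp_add, hR]
    refine Real.exp_le_exp.2 ?_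
    simp only
    linarith
  · -- level in the window
    have hx' := abs_lt.1 hx
    obtain ⟨i, hi1, hi2, hi3, hi4⟩ := net (fun j => ((B j c').card : ℝ)) m A.card
      (by have := hc'.1; linarith) (by have := hc'.2.1; linarith) hm
    obtain ⟨j, hj1, hj2, hj3, hj4⟩ := net (fun j => ((B j c).card : ℝ)) m (n / 2)
      (by have := hc.1; linarith) (by have := hc.2.1; linarith) hm
    have hi5 := hc'.2.2 i hi1 hi2
    have hj5 := hc.2.2 j hj1 hj2
    have hsub : B i c' ⊆ A := by
      rcases hcomp i with h | h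
      · have h1 : (B i c').card ≤ A.card := by exact_mod_cast hi3
        rw [eq_of_subset_of_card_le h h1]
      · exact h
    have hinter : B i c' ∩ A = B i c' := inter_eq_left.2 hsub
    have hdA : ((symmDiff (B i c') A).card : ℝ) ≤ e := by
      rw [card_symmDiff_real, hinter]; linarith
    have hmid : |((B j c).card : ℝ) - n / 2| ≤ e := by
      rw [abs_le]; constructor <;> linarith
    have hmid' := abs_le.1 hmid
    have hdt := dt_le k F c j hj1 hj2.le A hA
    have htri := symmDiff_tri (B j c) (B i c') A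
    rw [symmDiff_comm (B j c) (B i c')] at htri
    have hdt2 : dt k F c ≤ ((symmDiff (B i c') (B j c)).card : ℝ) + 2 * e := by linarith
    obtain ⟨i', rfl⟩ : ∃ i', i = i' + 1 := ⟨i - 1, by omega⟩
    obtain ⟨j', rfl⟩ : ∃ j', j = j' + 1 := ⟨j - 1, by omega⟩
    refine ⟨(⟨i', by omega⟩, ⟨j', by omega⟩), hgle.trans ?_⟩
    have h1 : (n.choose A.card : ℝ) / n.choose (n / 2) ≤
        Real.exp (-(2 * ((A.card : ℝ) - n / 2) ^ 2 / n) + δ) := by
      rw [div_le_iff₀ hM]; exact hbin _ hAn hx.le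
    have h4 := mul_le_mul_of_nonneg_right h1 (Real.exp_pos (-(n * kap + err))).le
    refine h4.trans ?_
    rw [← Real.exp_add, hR]
    refine Real.exp_le_exp.2 ?_
    have h2 := sum_inc_ge hn p L kap (i' + 1) (j' + 1) c' c
    simp only
    set x := (A.card : ℝ) - n / 2 with hxdef
    set z := ((B (i' + 1) c').card : ℝ) - (B (j' + 1) c).card with hz
    have hz1 : |z| ≤ |x| + 2 * e := by
      have h5 : z = (((B (i' + 1) c').card : ℝ) - A.card) + x -
          (((B (j' + 1) c).card : ℝ) - n / 2) := by rw [hz, hxdef]; ring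
      rw [h5, abs_le]
      have h6 := neg_abs_le x
      have h7 := le_abs_self x
      constructor <;> linarith
    have hz2 : z ^ 2 ≤ x ^ 2 + 4 * t * e + 4 * e ^ 2 := by
      have h5 : z ^ 2 ≤ (|x| + 2 * e) ^ 2 := by
        rw [← sq_abs z]; exact pow_le_pow_left₀ (abs_nonneg _) hz1 2
      have h6 : (|x| + 2 * e) ^ 2 = x ^ 2 + 4 * |x| * e + 4 * e ^ 2 := by
        rw [← sq_abs x]; ring
      have h7 : |x| * e ≤ t * e := mul_le_mul_of_nonneg_right hx.le he
      linarith
    have hz3 : 2 * z ^ 2 / n ≤ 2 * x ^ 2 / n + 8 * (t * e + e ^ 2) / n := by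
      rw [← add_div]
      refine div_le_div_of_nonneg_right ?_ hn'.le
      linarith
    have h8 : L * dt k F c ≤ L * ((symmDiff (B (i' + 1) c') (B (j' + 1) c)).card : ℝ) +
        2 * L * e := by
      have := mul_le_mul_of_nonneg_left hdt2 hL
      linarith
    linarith

end Pool.Agent.F155AS
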